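import Pool.Agent.Helper14.ND.Near
import Pool.Agent.Helper57.EV.Bridge
import Pool.Agent.Helper3.EVC.Defs

/-!
# Positive braids: the roots near zero are real, and the distance of all roots from the positive axis
-/

set_option autoImplicit false

namespace Pool.Agent.Helper14.ND

open Polynomial Matrix Pool.Agent.Helper76.Conway Pool.Agent.Helper76.Conway.Top Pool.Agent.Helper99.ZB
  Pool.Agent.Helper57.EV

variable {G : ℕ → Type} [∀ n, Group (G n)] {sg : ∀ n, ℕ → G n} {N : ∀ n, G n → ℤ[X]}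

/-- the constant -/
noncomputable def dl (n : ℕ) : ℝ := 1 / ((n : ℝ) + 1) ^ 2

theorem dl_pos (n : ℕ) : 0 < dl n := by
  unfold dl
  positivity

theorem dl_le (n : ℕ) : dl n ≤ 1 := by
  unfold dl
  rw [div_le_one (by positivity)]
  have : (0 : ℝ) ≤ n := Nat.cast_nonneg n
  nlinarith

/-- **Roots in the variable `z`**: either imaginary, or outside a sector and large. -/
theorem root_z (h : Mk G sg N) {n : ℕ} {w : List ℕ} (hw : ∀ a ∈ w, a < n) (hf : ∀ a < n, a ∈ w) {z : ℂ}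
    (hz : aeval z (N n (V (sg n) w)) = 0) (hre : 0 ≤ z.re) :
    z.re = 0 ∨ (dl n / 8 * z.re ≤ |z.im| ∧ dl n / 8 ≤ |z.im|) := by
  obtain ⟨s, hs0, hs1, hzs⟩ := exists_s z
  have hm0 : 0 < ‖s‖ := norm_pos_iff.2 hs0
  obtain ⟨m, hm⟩ : ∃ m, m = ‖s‖ := ⟨_, rfl⟩
  obtain ⟨α, hα⟩ : ∃ α, α = s.arg := ⟨_, rfl⟩
  have hsp : s = m * (Real.cos α + Real.sin α * Complex.I) := by
    rw [hm, hα]
    push_cast
    exact (Complex.norm_mul_cos_add_sin_mul_I s).symm
  have hmc : (m : ℂ) ≠ 0 := by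
    rw [hm]
    exact_mod_cast hm0.ne'
  have hinv : s⁻¹ = (m⁻¹ : ℝ) * (Real.cos α - Real.sin α * Complex.I) := by
    rw [hsp, mul_inv]
    have h1 : ((Real.cos α : ℝ) + Real.sin α * Complex.I : ℂ) * (Real.cos α - Real.sin α * Complex.I) = 1 := by
      have h2 : ((Real.cos α : ℝ) : ℂ) ^ 2 + ((Real.sin α : ℝ) : ℂ) ^ 2 = 1 := by
        have := Real.cos_sq_add_sin_sq α
        exact_mod_cast this
      have h3 : Complex.I ^ 2 = -1 := Complex.I_sq
      linear_combination h2 - ((Real.sin α : ℝ) : ℂ) ^ 2 * h3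
    rw [inv_eq_of_mul_eq_one_right h1, Complex.ofReal_inv]
  have hzre : z.re = (m⁻¹ - m) * Real.cos α := by
    rw [hzs, hinv, hsp]
    simp only [Complex.sub_re, Complex.add_re, Complex.ofReal_re, Complex.mul_re, Complex.I_re, Complex.I_im,
      Complex.ofReal_im]
    ring
  have hzim : z.im = -((m⁻¹ + m) * Real.sin α) := by
    rw [hzs, hinv, hsp]
    simp only [Complex.sub_im, Complex.add_im, Complex.ofReal_re, Complex.mul_im, Complex.I_re, Complex.I_im,
      Complex.ofReal_im]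
    ring
  rw [← hm] at hm0 hs1
  rcases eq_or_lt_of_le hs1 with h1 | h1
  · left
    rw [hzre, h1]
    simp
  · -- inside the disc
    have hdet : det (1 - W s n w) = 0 := by
      have := eval_eq h hs0 (by rw [← hm]; exact h1) n w hw
      rw [← hzs, hz, zero_mul, zero_mul] at this
      exact this.symm
    have harg : 1 / (8 * ((n : ℝ) + 1) ^ 2) < |α| := by
      by_contra hcon
      push Not at hcon
      exact near hs0 (by rw [← hm]; exact h1) (by rw [← hα]; exact hcon) hw hf hdet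
    have hd : dl n / 8 = 1 / (8 * ((n : ℝ) + 1) ^ 2) := by
      unfold dl
      field_simp
    rw [← hd] at harg
    have hmi : 1 < m⁻¹ := (one_lt_inv₀ hm0).2 h1
    have hmm : m * m⁻¹ = 1 := mul_inv_cancel₀ hm0.ne'
    have hcos : 0 ≤ Real.cos α := by
      by_contra hcon
      push Not at hcon
      have : z.re < 0 := by
        rw [hzre]
        exact mul_neg_of_pos_of_neg (by linarith) hcon
      linarith
    have hαpi : |α| ≤ Real.pi := by rw [hα]; exact Complex.abs_arg_le_pi s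
    have hα2 : |α| ≤ Real.pi / 2 := by
      by_contra hcon
      push Not at hcon
      have h2 : Real.cos |α| < 0 := Real.cos_neg_of_pi_div_two_lt_of_lt hcon (by linarith [Real.pi_pos])
      rw [Real.cos_abs] at h2
      linarith
    obtain ⟨β, hβ⟩ : ∃ β, β = |α| := ⟨_, rfl⟩
    have hcb : Real.cos α = Real.cos β := by rw [hβ, Real.cos_abs]
    have hsb : |Real.sin α| = Real.sin β := by rw [hβ]; exact abs_sin' hαpi
    rw [← hβ] at harg hα2
    have hdn := dl_pos n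
    have hβ0 : 0 < β := by linarith
    have hsinβ : 0 ≤ Real.sin β := Real.sin_nonneg_of_nonneg_of_le_pi hβ0.le (by linarith [Real.pi_pos])
    have habs : |z.im| = (m⁻¹ + m) * Real.sin β := by
      rw [hzim, abs_neg, abs_mul, hsb, abs_of_pos (by positivity)]
    -- Jordan
    have hj : 2 / Real.pi * β ≤ Real.sin β := Real.mul_le_sin hβ0.le hα2
    have hj2 : β / 2 ≤ Real.sin β := by
      refine le_trans ?_ hj
      have hpi := Real.pi_le_four
      have : 1 / 2 ≤ 2 / Real.pi := by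
        rw [div_le_div_iff₀ (by norm_num) Real.pi_pos]
        linarith
      nlinarith
    have h2m : 2 ≤ m⁻¹ + m := by nlinarith [sq_nonneg (m - 1)]
    refine Or.inr ⟨?_, ?_⟩
    · -- `β cos β ≤ sin β`
      have h3 : β * Real.cos β ≤ Real.sin β := by
        rcases eq_or_lt_of_le hα2 with h4 | h4
        · rw [h4, Real.cos_pi_div_two, Real.sin_pi_div_two]
          norm_num
        · have h5 := Real.le_tan hβ0.le h4
          rw [Real.tan_eq_sin_div_cos] at h5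
          have h6 : 0 < Real.cos β := Real.cos_pos_of_mem_Ioo ⟨by linarith [Real.pi_pos], h4⟩
          rwa [le_div_iff₀ h6] at h5
      rw [habs, hzre, hcb]
      rw [hcb] at hcos
      calc dl n / 8 * ((m⁻¹ - m) * Real.cos β) ≤ β * ((m⁻¹ - m) * Real.cos β) :=
            mul_le_mul_of_nonneg_right harg.le (mul_nonneg (by linarith) hcos)
        _ = (m⁻¹ - m) * (β * Real.cos β) := by ring
        _ ≤ (m⁻¹ - m) * Real.sin β := mul_le_mul_of_nonneg_left h3 (by linarith)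
        _ ≤ (m⁻¹ + m) * Real.sin β := mul_le_mul_of_nonneg_right (by linarith) hsinβ
    · rw [habs]
      nlinarith

/-- square roots of the roots of `half` -/
theorem root_of_half (h : Mk G sg N) {n : ℕ} {w : List ℕ} (hw : ∀ a ∈ w, a < n) (hf : ∀ a < n, a ∈ w) {ρ : ℂ}
    (hρ : ρ ∈ EVC.Z (half (N n (V (sg n) w)))) : ∃ z : ℂ, z ^ 2 = ρ ∧ 0 ≤ z.re ∧ aeval z (N n (V (sg n) w)) = 0 := by
  obtain ⟨p, hp⟩ : ∃ p, p = N n (V (sg n) w) := ⟨_, rfl⟩
  obtain ⟨-, -, -, -, -, hev, -⟩ := word h hw hf hp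
  obtain ⟨y, hy⟩ := IsAlgClosed.exists_pow_nat_eq ρ (n := 2) (by norm_num)
  obtain ⟨z, hz, hzre⟩ : ∃ z : ℂ, z ^ 2 = ρ ∧ 0 ≤ z.re := by
    rcases le_total 0 y.re with h1 | h1
    · exact ⟨y, hy, h1⟩
    · exact ⟨-y, by rw [neg_sq]; exact hy, by rw [Complex.neg_re]; linarith⟩
  refine ⟨z, hz, hzre, ?_⟩
  rw [← hp] at hρ ⊢
  have h2 : aeval ρ (half p) = 0 := by
    unfold EVC.Z at hρ
    have h3 := (mem_roots'.1 hρ).2
    rw [IsRoot.def, eval_map_algebraMap] at h3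
    exact h3
  rw [hev z, hz, h2, mul_zero]

/-- zero is not a root of `half` -/
theorem zero_not_mem (h : Mk G sg N) {n : ℕ} {w : List ℕ} (hw : ∀ a ∈ w, a < n) (hf : ∀ a < n, a ∈ w) {ρ : ℂ}
    (hρ : ρ ∈ EVC.Z (half (N n (V (sg n) w)))) : ρ ≠ 0 := by
  obtain ⟨-, -, -, h1, -, -, -⟩ := word h hw hf rfl
  rintro rfl
  unfold EVC.Z at hρ
  have h3 := (mem_roots'.1 hρ).2
  rw [IsRoot.def, eval_map_algebraMap, ← coeff_zero_eq_aeval_zero', Complex.coe_algebraMap, Complex.ofReal_eq_zero] at h3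
  linarith

/-- **Near zero all roots are real negative.** -/
theorem near_real (h : Mk G sg N) {n : ℕ} {w : List ℕ} (hw : ∀ a ∈ w, a < n) (hf : ∀ a < n, a ∈ w) {ρ : ℂ}
    (hρ : ρ ∈ EVC.Z (half (N n (V (sg n) w)))) (hs : ‖ρ‖ < 1 / (64 * ((n : ℝ) + 1) ^ 4)) : ρ.re < 0 ∧ ρ.im = 0 := by
  obtain ⟨z, hz, hre, hz0⟩ := root_of_half h hw hf hρ
  have hd := dl_pos n
  have e : 1 / (64 * ((n : ℝ) + 1) ^ 4) = (dl n / 8) ^ 2 := by
    unfold dl
    field_simp
    norm_num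
  rw [e, ← hz, norm_pow] at hs
  rcases root_z h hw hf hz0 hre with h1 | ⟨-, h1⟩
  · have h2 : z = z.im * Complex.I := by
      apply Complex.ext
      · simp [h1]
      · simp
    have h3 : z ^ 2 = ((-(z.im ^ 2) : ℝ) : ℂ) := by
      have h5 : z ^ 2 = (z.im * Complex.I) ^ 2 := congrArg (fun x => x ^ 2) h2
      rw [h5]
      push_cast
      linear_combination ((z.im : ℝ) : ℂ) ^ 2 * Complex.I_sq
    have h4 := zero_not_mem h hw hf hρ
    rw [← hz, h3]
    rw [← hz, h3] at h4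
    refine ⟨?_, Complex.ofReal_im _⟩
    rw [Complex.ofReal_re]
    have h5 : z.im ≠ 0 := by
      rintro h6
      rw [h6] at h4
      simp at h4
    have : 0 < z.im ^ 2 := by positivity
    linarith
  · exfalso
    have h2 := h1.trans (Complex.abs_im_le_norm z)
    have h3 : (dl n / 8) ^ 2 ≤ ‖z‖ ^ 2 := pow_le_pow_left₀ (by positivity) h2 2
    linarith

/-- the same in the form `60` degrees -/
theorem near_sixty (h : Mk G sg N) {n : ℕ} {w : List ℕ} (hw : ∀ a ∈ w, a < n) (hf : ∀ a < n, a ∈ w) {ρ : ℂ}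
    (hρ : ρ ∈ EVC.Z (half (N n (V (sg n) w)))) (hs : ‖ρ‖ < 1 / (64 * ((n : ℝ) + 1) ^ 4)) :
    ρ.re < 0 ∧ ρ.im ^ 2 ≤ 3 * ρ.re ^ 2 := by
  obtain ⟨h1, h2⟩ := near_real h hw hf hρ hs
  refine ⟨h1, ?_⟩
  rw [h2]
  have := sq_nonneg ρ.re
  nlinarith

/-- **The distance of the roots from the positive axis**, all radii. -/
theorem dist_pos (h : Mk G sg N) {n : ℕ} {w : List ℕ} (hw : ∀ a ∈ w, a < n) (hf : ∀ a < n, a ∈ w) {ρ : ℂ}
    (hρ : ρ ∈ EVC.Z (half (N n (V (sg n) w)))) {r : ℝ} (hr : 0 < r) :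
    1 / (80 * ((n : ℝ) + 1) ^ 2) * (r + ‖ρ‖) ≤ ‖(r : ℂ) - ρ‖ := by
  obtain ⟨z, hz, hre, hz0⟩ := root_of_half h hw hf hρ
  obtain ⟨φ, hφ⟩ : ∃ φ, φ = dl n / 8 := ⟨_, rfl⟩
  have hd := dl_pos n
  have hd1 := dl_le n
  have hφ0 : 0 < φ := by rw [hφ]; positivity
  have hφ1 : φ ≤ 1 := by rw [hφ]; linarith
  have e : 1 / (80 * ((n : ℝ) + 1) ^ 2) = φ / 10 := by
    rw [hφ]
    unfold dl
    field_simp
    norm_num
  rw [e]
  obtain ⟨x, hx⟩ : ∃ x, x = √r := ⟨_, rfl⟩
  have hx0 : 0 < x := by rw [hx]; exact Real.sqrt_pos.2 hr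
  have hxr : x ^ 2 = r := by rw [hx]; exact Real.sq_sqrt hr.le
  -- the sector
  have hsec : φ * z.re ≤ |z.im| := by
    rcases root_z h hw hf hz0 hre with h1 | ⟨h1, -⟩
    · rw [h1, mul_zero]
      exact abs_nonneg _
    · rw [hφ]
      exact h1
  obtain ⟨y, hy⟩ : ∃ y, y = ‖z - x‖ := ⟨_, rfl⟩
  have h1 : |z.im| ≤ y := by
    have := Complex.abs_im_le_norm (z - x)
    rw [Complex.sub_im, Complex.ofReal_im, sub_zero, ← hy] at this
    exact this
  have h2 : x - z.re ≤ y := by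
    have := (neg_abs_le _).trans' (neg_le_neg (Complex.abs_re_le_norm (z - x)))
    rw [Complex.sub_re, Complex.ofReal_re, ← hy] at this
    linarith
  have hy0 : 0 ≤ y := by rw [hy]; exact norm_nonneg _
  have h3 : φ * x ≤ 2 * y := by nlinarith
  have h4 : ‖z‖ ≤ x + y := by
    have := norm_add_le (z - x) (x : ℂ)
    rw [sub_add_cancel, Complex.norm_real, Real.norm_of_nonneg hx0.le, ← hy] at this
    linarith
  have hzn := norm_nonneg z
  have h5 : φ * (x + ‖z‖) ≤ 5 * y := by nlinarith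
  have h6 : (x + ‖z‖) / 2 ≤ ‖z + x‖ := by
    have h7 : x ≤ ‖z + x‖ := by
      have := (le_abs_self _).trans (Complex.abs_re_le_norm (z + x))
      rw [Complex.add_re, Complex.ofReal_re] at this
      linarith
    have h8 : ‖z‖ ≤ ‖z + x‖ := by
      rw [← sq_le_sq₀ (norm_nonneg _) (norm_nonneg _), ← Complex.normSq_eq_norm_sq, ← Complex.normSq_eq_norm_sq,
        Complex.normSq_apply, Complex.normSq_apply, Complex.add_re, Complex.add_im, Complex.ofReal_re, Complex.ofReal_im]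
      nlinarith
    linarith
  have h7 : ‖(r : ℂ) - ρ‖ = y * ‖z + x‖ := by
    rw [hy, ← norm_mul]
    have e1 : (z - (x : ℂ)) * (z + (x : ℂ)) = -((r : ℂ) - ρ) := by
      have e2 : ((x : ℝ) : ℂ) ^ 2 = (r : ℂ) := by exact_mod_cast hxr
      rw [← hz]
      linear_combination -e2
    rw [e1, norm_neg]
  have h8 : r + ‖ρ‖ ≤ (x + ‖z‖) * (x + ‖z‖) := by
    rw [← hxr, ← hz, norm_pow]
    nlinarith [mul_nonneg hx0.le hzn]
  rw [h7]
  calc φ / 10 * (r + ‖ρ‖) ≤ φ / 10 * ((x + ‖z‖) * (x + ‖z‖)) := mul_le_mul_of_nonneg_left h8 (by positivity)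
    _ = (φ * (x + ‖z‖) / 5) * ((x + ‖z‖) / 2) := by ring
    _ ≤ y * ‖z + x‖ := by
      refine mul_le_mul (by linarith) h6 (by positivity) hy0

end Pool.Agent.Helper14.ND
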