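import Pool.Agent.Helper14.ND.Near2
import Pool.Agent.Helper14.ND.Fields

/-!
# Positive braids: the distance of all roots from the positive axis, sharper constant
-/

set_option autoImplicit false

namespace Pool.Agent.Helper14.ND

open Polynomial Matrix Pool.Agent.Helper76.Conway Pool.Agent.Helper76.Conway.Top Pool.Agent.Helper99.ZB
  Pool.Agent.Helper57.EV

variable {G : ℕ → Type} [∀ n, Group (G n)] {sg : ∀ n, ℕ → G n} {N : ∀ n, G n → ℤ[X]}

/-- **Roots in the variable `z`**: either imaginary, or outside a sector and large. -/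
theorem root_z2 (h : Mk G sg N) {n : ℕ} {w : List ℕ} (hw : ∀ a ∈ w, a < n) (hf : ∀ a < n, a ∈ w) {z : ℂ}
    (hz : aeval z (N n (V (sg n) w)) = 0) (hre : 0 ≤ z.re) :
    z.re = 0 ∨ 1 / (5 * ((n : ℝ) + 1)) * z.re ≤ |z.im| := by
  obtain ⟨s, hs0, hs1, hzs⟩ := exists_s z
  have hm0 : 0 < ‖s‖ := norm_pos_iff.2 hs0
  obtain ⟨m, hm⟩ : ∃ m, m = ‖s‖ := ⟨_, rfl⟩
  obtain ⟨α, hα⟩ : ∃ α, α = s.arg := ⟨_, rfl⟩
  have hsp : s = m * (Real.cos α + Real.sin α * Complex.I) := by
    rw [hm, hα]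
    push_cast
    exact (Complex.norm_mul_cos_add_sin_mul_I s).symm
  have hmc : (m : ℂ) ≠ 0 := by
    rw [hm]
    exact_mod_cast hm0.ne'
  have hinv : s⁻¹ = (m⁻¹ : ℝ) * (Real.cos α - Real.sin α * Complex.I) := by
    rw [hsp, mul_inv]
    have h1 : ((Real.cos α : ℝ) + Real.sin α * Complex.I : ℂ) * (Real.cos α - Real.sin α * Complex.I) = 1 := by
      have h2 : ((Real.cos α : ℝ) : ℂ) ^ 2 + ((Real.sin α : ℝ) : ℂ) ^ 2 = 1 := by
        have := Real.cos_sq_add_sin_sq α
        exact_mod_cast this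
      have h3 : Complex.I ^ 2 = -1 := Complex.I_sq
      linear_combination h2 - ((Real.sin α : ℝ) : ℂ) ^ 2 * h3
    rw [inv_eq_of_mul_eq_one_right h1, Complex.ofReal_inv]
  have hzre : z.re = (m⁻¹ - m) * Real.cos α := by
    rw [hzs, hinv, hsp]
    simp only [Complex.sub_re, Complex.add_re, Complex.ofReal_re, Complex.mul_re, Complex.I_re, Complex.I_im,
      Complex.ofReal_im]
    ring
  have hzim : z.im = -((m⁻¹ + m) * Real.sin α) := by
    rw [hzs, hinv, hsp]
    simp only [Complex.sub_im, Complex.add_im, Complex.ofReal_re, Complex.mul_im, Complex.I_re, Complex.I_im,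
      Complex.ofReal_im]
    ring
  rw [← hm] at hm0 hs1
  rcases eq_or_lt_of_le hs1 with h1 | h1
  · left
    rw [hzre, h1]
    simp
  · -- inside the disc
    have hdet : det (1 - W s n w) = 0 := by
      have := eval_eq h hs0 (by rw [← hm]; exact h1) n w hw
      rw [← hzs, hz, zero_mul, zero_mul] at this
      exact this.symm
    have hmi : 1 < m⁻¹ := (one_lt_inv₀ hm0).2 h1
    have hcos : 0 ≤ Real.cos α := by
      by_contra hcon
      push Not at hcon
      have : z.re < 0 := by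
        rw [hzre]
        exact mul_neg_of_pos_of_neg (by linarith) hcon
      linarith
    have hαpi : |α| ≤ Real.pi := by rw [hα]; exact Complex.abs_arg_le_pi s
    have hα2 : |α| ≤ Real.pi / 2 := by
      by_contra hcon
      push Not at hcon
      have h2 : Real.cos |α| < 0 := Real.cos_neg_of_pi_div_two_lt_of_lt hcon (by linarith [Real.pi_pos])
      rw [Real.cos_abs] at h2
      linarith
    rcases eq_or_lt_of_le hα2 with h4 | h4
    · left
      have h5 : Real.cos |α| = 0 := by rw [h4, Real.cos_pi_div_two]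
      rw [Real.cos_abs] at h5
      rw [hzre, h5, mul_zero]
    · right
      have hn1 : 0 < (n : ℝ) + 1 := by positivity
      have hsinh : Real.sinh (-Real.log m) = (m⁻¹ - m) / 2 := by
        rw [Real.sinh_eq, neg_neg, Real.exp_log hm0, Real.exp_neg, Real.exp_log hm0]
      have hlt : (m⁻¹ - m) / 2 < 5 * ((n : ℝ) + 1) * |Real.sin α| := by
        by_contra hcon
        push Not at hcon
        refine near2 hs0 (by rw [← hm]; exact h1) (by rw [← hα]; exact h4) ?_ hw hf hdet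
        rw [← hα, ← hm, hsinh]
        exact hcon
      have habs : |z.im| = (m⁻¹ + m) * |Real.sin α| := by
        rw [hzim, abs_neg, abs_mul, abs_of_pos (by positivity)]
      have hmm : m * m⁻¹ = 1 := mul_inv_cancel₀ hm0.ne'
      have h2m : 2 ≤ m⁻¹ + m := by nlinarith [sq_nonneg (m - 1)]
      have hs0' := abs_nonneg (Real.sin α)
      rw [habs, hzre, one_div, inv_mul_le_iff₀ (by positivity)]
      have h5 : (m⁻¹ - m) * Real.cos α ≤ m⁻¹ - m := by
        have := Real.cos_le_one α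
        nlinarith
      have h6 : 2 * |Real.sin α| ≤ (m⁻¹ + m) * |Real.sin α| := mul_le_mul_of_nonneg_right h2m hs0'
      have h7 : 5 * ((n : ℝ) + 1) * (2 * |Real.sin α|) ≤ 5 * ((n : ℝ) + 1) * ((m⁻¹ + m) * |Real.sin α|) :=
        mul_le_mul_of_nonneg_left h6 (by positivity)
      linarith

/-- **The distance of the roots from the positive axis**, all radii. -/
theorem dist_pos2 (h : Mk G sg N) {n : ℕ} {w : List ℕ} (hw : ∀ a ∈ w, a < n) (hf : ∀ a < n, a ∈ w) {ρ : ℂ}
    (hρ : ρ ∈ EVC.Z (half (N n (V (sg n) w)))) {r : ℝ} (hr : 0 < r) :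
    1 / (80 * ((n : ℝ) + 1)) * (r + ‖ρ‖) ≤ ‖(r : ℂ) - ρ‖ := by
  obtain ⟨z, hz, hre, hz0⟩ := root_of_half h hw hf hρ
  have hn0 : (0 : ℝ) ≤ n := Nat.cast_nonneg n
  obtain ⟨φ, hφ⟩ : ∃ φ, φ = 1 / (5 * ((n : ℝ) + 1)) := ⟨_, rfl⟩
  have hφ0 : 0 < φ := by rw [hφ]; positivity
  have hφ1 : φ ≤ 1 := by
    rw [hφ, div_le_one (by positivity)]
    linarith
  have e : 1 / (80 * ((n : ℝ) + 1)) ≤ φ / 10 := by
    rw [hφ, div_div]
    apply one_div_le_one_div_of_le (by positivity)
    linarith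
  refine (mul_le_mul_of_nonneg_right e (by positivity)).trans ?_
  obtain ⟨x, hx⟩ : ∃ x, x = √r := ⟨_, rfl⟩
  have hx0 : 0 < x := by rw [hx]; exact Real.sqrt_pos.2 hr
  have hxr : x ^ 2 = r := by rw [hx]; exact Real.sq_sqrt hr.le
  -- the sector
  have hsec : φ * z.re ≤ |z.im| := by
    rcases root_z2 h hw hf hz0 hre with h1 | h1
    · rw [h1, mul_zero]
      exact abs_nonneg _
    · rw [hφ]
      exact h1
  obtain ⟨y, hy⟩ : ∃ y, y = ‖z - x‖ := ⟨_, rfl⟩
  have h1 : |z.im| ≤ y := by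
    have := Complex.abs_im_le_norm (z - x)
    rw [Complex.sub_im, Complex.ofReal_im, sub_zero, ← hy] at this
    exact this
  have h2 : x - z.re ≤ y := by
    have := (neg_abs_le _).trans' (neg_le_neg (Complex.abs_re_le_norm (z - x)))
    rw [Complex.sub_re, Complex.ofReal_re, ← hy] at this
    linarith
  have hy0 : 0 ≤ y := by rw [hy]; exact norm_nonneg _
  have h3 : φ * x ≤ 2 * y := by nlinarith
  have h4 : ‖z‖ ≤ x + y := by
    have := norm_add_le (z - x) (x : ℂ)
    rw [sub_add_cancel, Complex.norm_real, Real.norm_of_nonneg hx0.le, ← hy] at this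
    linarith
  have hzn := norm_nonneg z
  have h5 : φ * (x + ‖z‖) ≤ 5 * y := by nlinarith
  have h6 : (x + ‖z‖) / 2 ≤ ‖z + x‖ := by
    have h7 : x ≤ ‖z + x‖ := by
      have := (le_abs_self _).trans (Complex.abs_re_le_norm (z + x))
      rw [Complex.add_re, Complex.ofReal_re] at this
      linarith
    have h8 : ‖z‖ ≤ ‖z + x‖ := by
      rw [← sq_le_sq₀ (norm_nonneg _) (norm_nonneg _), ← Complex.normSq_eq_norm_sq, ← Complex.normSq_eq_norm_sq,
        Complex.normSq_apply, Complex.normSq_apply, Complex.add_re, Complex.add_im, Complex.ofReal_re, Complex.ofReal_im]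
      nlinarith
    linarith
  have h7 : ‖(r : ℂ) - ρ‖ = y * ‖z + x‖ := by
    rw [hy, ← norm_mul]
    have e1 : (z - (x : ℂ)) * (z + (x : ℂ)) = -((r : ℂ) - ρ) := by
      have e2 : ((x : ℝ) : ℂ) ^ 2 = (r : ℂ) := by exact_mod_cast hxr
      rw [← hz]
      linear_combination -e2
    rw [e1, norm_neg]
  have h8 : r + ‖ρ‖ ≤ (x + ‖z‖) * (x + ‖z‖) := by
    rw [← hxr, ← hz, norm_pow]
    nlinarith [mul_nonneg hx0.le hzn]
  rw [h7]
  calc φ / 10 * (r + ‖ρ‖) ≤ φ / 10 * ((x + ‖z‖) * (x + ‖z‖)) := mul_le_mul_of_nonneg_left h8 (by positivity)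
    _ = (φ * (x + ‖z‖) / 5) * ((x + ‖z‖) / 2) := by ring
    _ ≤ y * ‖z + x‖ := by
      refine mul_le_mul (by linarith) h6 (by positivity) hy0

end Pool.Agent.Helper14.ND
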