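import Mathlib

/-!
# Letters with two parameters: the two legs

The letter `a` replaces `v a` by `ζ v a + (1 - ζ) κ (v (a - 1) + v (a + 1))`.
-/

set_option autoImplicit false

namespace Pool.Agent.Helper14.ND

open Matrix

variable {n : ℕ}

/-- neighbours on the path -/
def ad (i j : Fin n) : ℂ := if (i : ℕ) + 1 = j ∨ (j : ℕ) + 1 = i then 1 else 0

/-- the same with real values -/
def adR (i j : Fin n) : ℝ := if (i : ℕ) + 1 = j ∨ (j : ℕ) + 1 = i then 1 else 0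

theorem ad_eq (i j : Fin n) : ad i j = ((adR i j : ℝ) : ℂ) := by
  unfold ad adR
  split_ifs <;> simp

theorem adR_nonneg (i j : Fin n) : 0 ≤ adR i j := by
  unfold adR
  split_ifs <;> norm_num

theorem adR_symm (i j : Fin n) : adR i j = adR j i := by
  unfold adR
  by_cases h : (i : ℕ) + 1 = j ∨ (j : ℕ) + 1 = i
  · rw [if_pos h, if_pos h.symm]
  · rw [if_neg h, if_neg (fun h' => h h'.symm)]

theorem adR_self (i : Fin n) : adR i i = 0 := by
  unfold adR
  rw [if_neg]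
  omega

theorem norm_ad (i j : Fin n) : ‖ad i j‖ = adR i j := by
  rw [ad_eq, Complex.norm_real, Real.norm_of_nonneg (adR_nonneg i j)]

/-- sum of the neighbours -/
noncomputable def nb (v : Fin n → ℂ) (i : Fin n) : ℂ := ∑ j, ad i j * v j

/-- the letter -/
noncomputable def lt (ζ κ : ℂ) (a : Fin n) (v : Fin n → ℂ) : Fin n → ℂ :=
  fun i => if i = a then ζ * v a + (1 - ζ) * κ * nb v a else v i

/-- the matrix of the letter -/
noncomputable def Lz (ζ κ : ℂ) (a : Fin n) : Matrix (Fin n) (Fin n) ℂ :=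
  fun i j => if i = a then (if j = a then ζ else 0) + (1 - ζ) * κ * ad a j else if i = j then 1 else 0

theorem Lz_mulVec (ζ κ : ℂ) (a : Fin n) (v : Fin n → ℂ) : Lz ζ κ a *ᵥ v = lt ζ κ a v := by
  ext i
  unfold Lz lt nb mulVec dotProduct
  by_cases h : i = a
  · subst h
    simp only [if_true, add_mul, ite_mul, zero_mul, Finset.sum_add_distrib, Finset.sum_ite_eq',
      Finset.mem_univ, Finset.mul_sum, mul_assoc]
  · simp only [h, if_false, ite_mul, one_mul, zero_mul, Finset.sum_ite_eq, Finset.mem_univ, if_true]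

/-- the matrix of the word -/
noncomputable def Wz (ζ κ : ℂ) (w : List (Fin n)) : Matrix (Fin n) (Fin n) ℂ := (w.map (Lz ζ κ)).prod

theorem Wz_nil (ζ κ : ℂ) : Wz ζ κ ([] : List (Fin n)) = 1 := rfl

theorem Wz_cons (ζ κ : ℂ) (a : Fin n) (w : List (Fin n)) : Wz ζ κ (a :: w) = Lz ζ κ a * Wz ζ κ w := by
  unfold Wz
  rw [List.map_cons, List.prod_cons]

theorem Wz_cons_mulVec (ζ κ : ℂ) (a : Fin n) (w : List (Fin n)) (v : Fin n → ℂ) :
    Wz ζ κ (a :: w) *ᵥ v = lt ζ κ a (Wz ζ κ w *ᵥ v) := by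
  rw [Wz_cons, ← mulVec_mulVec, Lz_mulVec]

/-- an invariant of the letters is an invariant of the powers of the word -/
theorem inv_pow {ζ κ : ℂ} {P : (Fin n → ℂ) → Prop} (h : ∀ a v, P v → P (lt ζ κ a v)) (w : List (Fin n)) (k : ℕ)
    (v : Fin n → ℂ) (hv : P v) : P ((Wz ζ κ w ^ k) *ᵥ v) := by
  have hw : ∀ v, P v → P (Wz ζ κ w *ᵥ v) := by
    intro v hv
    induction w with
    | nil => rwa [Wz_nil, one_mulVec]
    | cons a w ih =>
      rw [Wz_cons_mulVec]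
      exact h a _ ih
  induction k with
  | zero => rwa [pow_zero, one_mulVec]
  | succ k ih =>
    rw [pow_succ', ← mulVec_mulVec]
    exact hw _ ih

/-- the weights -/
structure Wts (n : ℕ) (l K D : ℝ) (ω : Fin n → ℝ) : Prop where
  one : ∀ i, 1 ≤ ω i
  top : ∀ i, ω i ≤ D
  step : ∀ i, ∑ j, adR i j * ω j ≤ 2 * l * ω i
  l0 : 0 ≤ l
  K0 : 0 < K
  lK : 2 * l * K < 1

section

variable {l K D : ℝ} {ω : Fin n → ℝ}

/-- **Second leg**: `ζ` real, `κ` complex. -/
theorem leg2_step (hω : Wts n l K D ω) {t : ℝ} (h0 : 0 ≤ t) (h1 : t ≤ 1) {κ : ℂ} (hκ : ‖κ‖ ≤ K) (a : Fin n)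
    (v : Fin n → ℂ) (hv : ∀ i, ‖v i‖ ≤ ω i) (i : Fin n) : ‖lt (t : ℂ) κ a v i‖ ≤ ω i := by
  unfold lt
  by_cases h : i = a
  · rw [if_pos h, h]
    have e1 : ‖nb v a‖ ≤ 2 * l * ω a := by
      unfold nb
      refine (norm_sum_le _ _).trans (le_trans (Finset.sum_le_sum fun j _ => ?_) (hω.step a))
      rw [norm_mul, norm_ad]
      exact mul_le_mul_of_nonneg_left (hv j) (adR_nonneg a j)
    have e2 : ‖(1 - (t : ℂ))‖ = 1 - t := by
      have : (1 - (t : ℂ)) = ((1 - t : ℝ) : ℂ) := by push_cast; ring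
      rw [this, Complex.norm_real, Real.norm_of_nonneg (by linarith)]
    have e3 : ‖(t : ℂ)‖ = t := by rw [Complex.norm_real, Real.norm_of_nonneg h0]
    have e4 : ‖κ‖ * ‖nb v a‖ ≤ ω a := by
      have h5 : ‖κ‖ * ‖nb v a‖ ≤ K * (2 * l * ω a) := mul_le_mul hκ e1 (norm_nonneg _) hω.K0.le
      have h6 : K * (2 * l * ω a) = (2 * l * K) * ω a := by ring
      have h7 : (2 * l * K) * ω a ≤ 1 * ω a := mul_le_mul_of_nonneg_right hω.lK.le (zero_le_one.trans (hω.one a))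
      linarith
    calc ‖(t : ℂ) * v a + (1 - t) * κ * nb v a‖ ≤ ‖(t : ℂ) * v a‖ + ‖(1 - t) * κ * nb v a‖ := norm_add_le _ _
      _ = t * ‖v a‖ + (1 - t) * (‖κ‖ * ‖nb v a‖) := by
        rw [norm_mul, norm_mul, norm_mul, e2, e3, mul_assoc]
      _ ≤ t * ω a + (1 - t) * ω a := by
        have := mul_le_mul_of_nonneg_left (hv a) h0
        have := mul_le_mul_of_nonneg_left e4 (sub_nonneg.2 h1)
        linarith
      _ = ω a := by ring
  · rw [if_neg h]
    exact hv i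

theorem leg2 (hω : Wts n l K D ω) {t : ℝ} (h0 : 0 ≤ t) (h1 : t ≤ 1) {κ : ℂ} (hκ : ‖κ‖ ≤ K) (w : List (Fin n)) (k : ℕ)
    (i j : Fin n) : ‖(Wz (t : ℂ) κ w ^ k) i j‖ ≤ D := by
  have h := inv_pow (P := fun v => ∀ i, ‖v i‖ ≤ ω i) (fun a v hv i => leg2_step hω h0 h1 hκ a v hv i) w k (Pi.single j 1)
    (by
      intro i
      by_cases hij : i = j
      · subst hij
        simpa using hω.one i
      · rw [Pi.single_eq_of_ne hij, norm_zero]
        exact zero_le_one.trans (hω.one i))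
  have h2 := h i
  rw [mulVec_single_one] at h2
  exact h2.trans (hω.top i)

/-- the energy -/
noncomputable def Q (κ : ℝ) (v : Fin n → ℂ) : ℝ := ∑ i, (‖v i‖ ^ 2 - κ * (star (v i) * nb v i).re)

/-- the energy after a letter -/
theorem Q_lt (ζ : ℂ) (κ : ℝ) (a : Fin n) (v : Fin n → ℂ) :
    Q κ (lt ζ κ a v) = Q κ v - (1 - ‖ζ‖ ^ 2) * ‖v a - κ * nb v a‖ ^ 2 := by
  -- the change
  obtain ⟨x, hx⟩ : ∃ x, x = (ζ - 1) * (v a - κ * nb v a) := ⟨_, rfl⟩
  have hl : ∀ i, lt ζ κ a v i = v i + (if i = a then x else 0) := by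
    intro i
    unfold lt
    by_cases h : i = a
    · rw [if_pos h, if_pos h, hx, h]
      ring
    · rw [if_neg h, if_neg h, add_zero]
  have hn : ∀ i, nb (lt ζ κ a v) i = nb v i + ad i a * x := by
    intro i
    unfold nb
    simp only [hl, mul_add, Finset.sum_add_distrib, mul_ite, mul_zero, Finset.sum_ite_eq', Finset.mem_univ, if_true]
  have haa : ad a a = 0 := by rw [ad_eq, adR_self]; simp
  have key : ∑ i, (star (lt ζ κ a v i) * nb (lt ζ κ a v) i) =
      ∑ i, star (v i) * nb v i + star x * nb v a + star (nb v a) * x := by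
    have e1 : ∀ i, star (lt ζ κ a v i) * nb (lt ζ κ a v) i =
        star (v i) * nb v i + (if i = a then star x * nb v a else 0) + star (v i) * ad i a * x := by
      intro i
      rw [hl, hn]
      by_cases h : i = a
      · subst h
        rw [if_pos rfl, if_pos rfl, haa]
        simp only [star_add]
        ring
      · rw [if_neg h, if_neg h]
        simp only [add_zero]
        ring
    have e2 : ∑ i, star (v i) * ad i a * x = star (nb v a) * x := by
      rw [← Finset.sum_mul]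
      congr 1
      unfold nb
      rw [star_sum]
      refine Finset.sum_congr rfl fun i _ => ?_
      simp only [ad_eq, StarMul.star_mul, adR_symm i a, Complex.star_def, Complex.conj_ofReal]
    simp only [e1, Finset.sum_add_distrib, Finset.sum_ite_eq', Finset.mem_univ, if_true, e2]
  have hQ : ∀ u : Fin n → ℂ, Q κ u = ∑ i, ‖u i‖ ^ 2 - κ * (∑ i, star (u i) * nb u i).re := by
    intro u
    unfold Q
    rw [Finset.sum_sub_distrib, ← Finset.mul_sum, Complex.re_sum]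
  rw [hQ, hQ, key]
  have e3 : ∑ i, ‖lt ζ κ a v i‖ ^ 2 = ∑ i, ‖v i‖ ^ 2 + (‖v a + x‖ ^ 2 - ‖v a‖ ^ 2) := by
    have : ∀ i, ‖lt ζ κ a v i‖ ^ 2 = ‖v i‖ ^ 2 + (if i = a then (‖v a + x‖ ^ 2 - ‖v a‖ ^ 2) else 0) := by
      intro i
      rw [hl]
      by_cases h : i = a
      · subst h
        rw [if_pos rfl, if_pos rfl]
        ring
      · rw [if_neg h, if_neg h, add_zero, add_zero]
    simp only [this, Finset.sum_add_distrib, Finset.sum_ite_eq', Finset.mem_univ, if_true]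
  rw [e3]
  simp only [Complex.add_re, Complex.star_def]
  rw [hx]
  generalize (∑ i, (starRingEnd ℂ) (v i) * nb v i).re = S
  generalize nb v a = y
  generalize v a = p
  simp only [← Complex.normSq_eq_norm_sq, Complex.normSq_apply, Complex.add_re, Complex.add_im, Complex.mul_re, Complex.mul_im,
    Complex.sub_re, Complex.sub_im, Complex.one_re, Complex.one_im, Complex.conj_re, Complex.conj_im, Complex.ofReal_re,
    Complex.ofReal_im]
  ring

/-- the energy is positive definite -/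
theorem Q_ge (hω : Wts n l K D ω) {κ : ℝ} (hκ : |κ| ≤ K) (v : Fin n → ℂ) :
    (1 - 2 * l * K) * ∑ i, ‖v i‖ ^ 2 ≤ Q κ v := by
  have hpos : ∀ i, 0 < ω i := fun i => zero_lt_one.trans_le (hω.one i)
  have h1 : ∀ i j, adR i j * (‖v i‖ * ‖v j‖) ≤
      adR i j * (ω j / ω i * ‖v i‖ ^ 2) / 2 + adR j i * (ω i / ω j * ‖v j‖ ^ 2) / 2 := by
    intro i j
    rw [adR_symm j i]
    have hi := hpos i
    have hj := hpos j
    have h2 : ‖v i‖ * ‖v j‖ ≤ (ω j / ω i * ‖v i‖ ^ 2) / 2 + (ω i / ω j * ‖v j‖ ^ 2) / 2 := by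
      have h3 : (ω j / ω i * ‖v i‖ ^ 2) / 2 + (ω i / ω j * ‖v j‖ ^ 2) / 2 - ‖v i‖ * ‖v j‖ =
          (ω j * ‖v i‖ - ω i * ‖v j‖) ^ 2 / (2 * ω i * ω j) := by
        field_simp
        ring
      have h4 : 0 ≤ (ω j * ‖v i‖ - ω i * ‖v j‖) ^ 2 / (2 * ω i * ω j) := by positivity
      linarith
    have := mul_le_mul_of_nonneg_left h2 (adR_nonneg i j)
    linarith
  have h5 : ∑ i, ∑ j, adR i j * (‖v i‖ * ‖v j‖) ≤ 2 * l * ∑ i, ‖v i‖ ^ 2 := by
    have h6 : ∑ i, ∑ j, adR i j * (ω j / ω i * ‖v i‖ ^ 2) ≤ 2 * l * ∑ i, ‖v i‖ ^ 2 := by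
      rw [Finset.mul_sum]
      refine Finset.sum_le_sum fun i _ => ?_
      have e : ∑ j, adR i j * (ω j / ω i * ‖v i‖ ^ 2) = (∑ j, adR i j * ω j) * (‖v i‖ ^ 2 / ω i) := by
        rw [Finset.sum_mul]
        refine Finset.sum_congr rfl fun j _ => ?_
        ring
      rw [e]
      have hi := hpos i
      calc (∑ j, adR i j * ω j) * (‖v i‖ ^ 2 / ω i) ≤ (2 * l * ω i) * (‖v i‖ ^ 2 / ω i) :=
            mul_le_mul_of_nonneg_right (hω.step i) (by positivity)
        _ = 2 * l * ‖v i‖ ^ 2 := by field_simp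
    calc ∑ i, ∑ j, adR i j * (‖v i‖ * ‖v j‖) ≤
        ∑ i, ∑ j, (adR i j * (ω j / ω i * ‖v i‖ ^ 2) / 2 + adR j i * (ω i / ω j * ‖v j‖ ^ 2) / 2) :=
          Finset.sum_le_sum fun i _ => Finset.sum_le_sum fun j _ => h1 i j
      _ = (∑ i, ∑ j, adR i j * (ω j / ω i * ‖v i‖ ^ 2)) / 2 + (∑ i, ∑ j, adR j i * (ω i / ω j * ‖v j‖ ^ 2)) / 2 := by
          simp only [Finset.sum_add_distrib, Finset.sum_div]
      _ = ∑ i, ∑ j, adR i j * (ω j / ω i * ‖v i‖ ^ 2) := by
          rw [Finset.sum_comm (f := fun i j => adR j i * (ω i / ω j * ‖v j‖ ^ 2))]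
          ring
      _ ≤ _ := h6
  have h7 : |∑ i, (star (v i) * nb v i).re| ≤ ∑ i, ∑ j, adR i j * (‖v i‖ * ‖v j‖) := by
    refine (Finset.abs_sum_le_sum_abs _ _).trans (Finset.sum_le_sum fun i _ => ?_)
    refine (Complex.abs_re_le_norm _).trans ?_
    rw [norm_mul, norm_star]
    unfold nb
    calc ‖v i‖ * ‖∑ j, ad i j * v j‖ ≤ ‖v i‖ * ∑ j, adR i j * ‖v j‖ := by
          refine mul_le_mul_of_nonneg_left ((norm_sum_le _ _).trans (Finset.sum_le_sum fun j _ => ?_)) (norm_nonneg _)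
          rw [norm_mul, norm_ad]
      _ = ∑ j, adR i j * (‖v i‖ * ‖v j‖) := by
          rw [Finset.mul_sum]
          refine Finset.sum_congr rfl fun j _ => ?_
          ring
  have h8 : Q κ v = ∑ i, ‖v i‖ ^ 2 - κ * ∑ i, (star (v i) * nb v i).re := by
    unfold Q
    rw [Finset.sum_sub_distrib, ← Finset.mul_sum]
  rw [h8]
  have h9 : κ * ∑ i, (star (v i) * nb v i).re ≤ K * (2 * l * ∑ i, ‖v i‖ ^ 2) := by
    refine (le_abs_self _).trans ?_
    rw [abs_mul]
    exact mul_le_mul hκ (h7.trans h5) (abs_nonneg _) hω.K0.le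
  linarith

theorem Q_single (κ : ℝ) (j : Fin n) : Q κ (Pi.single j 1) = 1 := by
  unfold Q
  rw [Finset.sum_eq_single j]
  · have : nb (Pi.single j 1) j = 0 := by
      unfold nb
      rw [Finset.sum_eq_single j]
      · rw [ad_eq, adR_self]
        simp
      · intro b _ hb
        rw [Pi.single_eq_of_ne hb, mul_zero]
      · intro h
        exact absurd (Finset.mem_univ j) h
    rw [this]
    simp
  · intro b _ hb
    rw [Pi.single_eq_of_ne hb]
    simp
  · intro h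
    exact absurd (Finset.mem_univ j) h

/-- **First leg**: `κ` real, `ζ` complex. -/
theorem leg1 (hω : Wts n l K D ω) {κ : ℝ} (hκ : |κ| ≤ K) {ζ : ℂ} (hζ : ‖ζ‖ ≤ 1) (w : List (Fin n)) (k : ℕ) (i j : Fin n) :
    ‖(Wz ζ κ w ^ k) i j‖ ≤ (1 - 2 * l * K)⁻¹ := by
  have hc : 0 < 1 - 2 * l * K := by linarith [hω.lK]
  have h := inv_pow (ζ := ζ) (κ := κ) (P := fun v => Q κ v ≤ 1) (fun a v hv => by
    have e : Q κ (lt ζ κ a v) ≤ 1 := by
      rw [Q_lt]
      have h2 : 0 ≤ (1 - ‖ζ‖ ^ 2) * ‖v a - κ * nb v a‖ ^ 2 := by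
        have : ‖ζ‖ ^ 2 ≤ 1 := by
          have := norm_nonneg ζ
          nlinarith
        have h3 : 0 ≤ 1 - ‖ζ‖ ^ 2 := by linarith
        positivity
      have hv' : Q κ v ≤ 1 := hv
      linarith
    exact e) w k (Pi.single j 1) (by
      have := Q_single κ j
      exact this.le)
  have h1 : Q κ ((Wz ζ κ w ^ k) *ᵥ Pi.single j 1) ≤ 1 := h
  have h2 := (Q_ge hω hκ ((Wz ζ κ w ^ k) *ᵥ Pi.single j 1)).trans h1
  have h3 : ‖((Wz ζ κ w ^ k) *ᵥ Pi.single j 1) i‖ ^ 2 ≤ ∑ i, ‖((Wz ζ κ w ^ k) *ᵥ Pi.single j 1) i‖ ^ 2 :=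
    Finset.single_le_sum (f := fun i => ‖((Wz ζ κ w ^ k) *ᵥ Pi.single j 1) i‖ ^ 2) (fun i _ => sq_nonneg _) (Finset.mem_univ i)
  obtain ⟨x, hx⟩ : ∃ x, x = ‖((Wz ζ κ w ^ k) *ᵥ Pi.single j 1) i‖ := ⟨_, rfl⟩
  rw [← hx] at h3
  have hx' : ‖(Wz ζ κ w ^ k) i j‖ = x := by
    rw [hx, mulVec_single_one]
    rfl
  rw [hx']
  have h4 : (1 - 2 * l * K) * x ^ 2 ≤ 1 := (mul_le_mul_of_nonneg_left h3 hc.le).trans h2
  have hlK : 0 ≤ 2 * l * K := by
    have := hω.l0
    have := hω.K0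
    positivity
  have hx0 : 0 ≤ x := by rw [hx]; exact norm_nonneg _
  have h5 : ((1 - 2 * l * K) * x) ^ 2 ≤ 1 := by
    have e : ((1 - 2 * l * K) * x) ^ 2 = (1 - 2 * l * K) * ((1 - 2 * l * K) * x ^ 2) := by ring
    rw [e]
    have : (1 - 2 * l * K) * ((1 - 2 * l * K) * x ^ 2) ≤ (1 - 2 * l * K) * 1 := mul_le_mul_of_nonneg_left h4 hc.le
    linarith
  have h6 : (1 - 2 * l * K) * x ≤ 1 := by
    have h7 : 0 ≤ (1 - 2 * l * K) * x := mul_nonneg hc.le hx0
    nlinarith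
  rw [inv_eq_one_div, le_div_iff₀ hc]
  linarith

/-- on the first leg there is no fixed vector -/
theorem leg1_ne (hω : Wts n l K D ω) {κ : ℝ} (hκ : |κ| ≤ K) {ζ : ℂ} (hζ : ‖ζ‖ < 1) {w : List (Fin n)} (hw : ∀ a, a ∈ w) :
    det (1 - Wz ζ κ w) ≠ 0 := by
  intro hdet
  obtain ⟨v, hv, hv2⟩ := exists_mulVec_eq_zero_iff.2 hdet
  rw [sub_mulVec, one_mulVec, sub_eq_zero] at hv2
  have hζ2 : 0 < 1 - ‖ζ‖ ^ 2 := by
    have := norm_nonneg ζ
    nlinarith
  -- the energy along the word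
  have main : ∀ u : List (Fin n), Q κ (Wz ζ κ u *ᵥ v) ≤ Q κ v ∧
      (Q κ (Wz ζ κ u *ᵥ v) = Q κ v → Wz ζ κ u *ᵥ v = v ∧ ∀ a ∈ u, v a = κ * nb v a) := by
    intro u
    induction u with
    | nil =>
      rw [Wz_nil, one_mulVec]
      exact ⟨le_rfl, fun _ => ⟨rfl, fun a ha => absurd ha List.not_mem_nil⟩⟩
    | cons a u ih =>
      rw [Wz_cons_mulVec, Q_lt]
      obtain ⟨x, hx⟩ : ∃ x, x = Wz ζ κ u *ᵥ v := ⟨_, rfl⟩
      rw [← hx] at ih ⊢
      have h0 : 0 ≤ (1 - ‖ζ‖ ^ 2) * ‖x a - κ * nb x a‖ ^ 2 := by positivity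
      refine ⟨by linarith [ih.1], fun he => ?_⟩
      have h1 : Q κ x = Q κ v := by linarith [ih.1]
      have h2 : (1 - ‖ζ‖ ^ 2) * ‖x a - κ * nb x a‖ ^ 2 = 0 := by linarith
      have h3 : x a - κ * nb x a = 0 := by
        rcases mul_eq_zero.1 h2 with h | h
        · linarith
        · exact norm_eq_zero.1 (pow_eq_zero_iff two_ne_zero |>.1 h)
      obtain ⟨h4, h5⟩ := ih.2 h1
      rw [h4] at h3 ⊢
      have h6 : v a = κ * nb v a := by linear_combination h3
      refine ⟨?_, ?_⟩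
      · ext i
        unfold lt
        by_cases h : i = a
        · rw [if_pos h, h]
          linear_combination (-(1 - ζ)) * h3
        · rw [if_neg h]
      · intro b hb
        rcases List.mem_cons.1 hb with rfl | hb
        · exact h6
        · exact h5 b hb
  obtain ⟨-, h5⟩ := (main w).2 (by rw [← hv2])
  have hQ : Q κ v = 0 := by
    unfold Q
    refine Finset.sum_eq_zero fun i _ => ?_
    have h6 := h5 i (hw i)
    have h7 : ‖v i‖ ^ 2 = κ * (star (v i) * nb v i).re := by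
      have h8 : (star (v i) * v i).re = κ * (star (v i) * nb v i).re := by
        conv_lhs => rw [h6]
        have : star (κ * nb v i) * (κ * nb v i) = (κ : ℂ) * (star (v i) * nb v i) := by
          conv_rhs => rw [h6]
          ring
        rw [this, Complex.re_ofReal_mul]
      rw [← h8, Complex.star_def, ← Complex.normSq_eq_norm_sq, mul_comm, Complex.mul_conj, Complex.ofReal_re]
    linarith
  have h9 := Q_ge hω hκ v
  rw [hQ] at h9
  have hc : 0 < 1 - 2 * l * K := by linarith [hω.lK]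
  have h10 : ∑ i, ‖v i‖ ^ 2 ≤ 0 := by
    by_contra h
    push Not at h
    have := mul_pos hc h
    linarith
  apply hv
  ext i
  have h11 : ‖v i‖ ^ 2 ≤ ∑ i, ‖v i‖ ^ 2 :=
    Finset.single_le_sum (f := fun i => ‖v i‖ ^ 2) (fun i _ => sq_nonneg _) (Finset.mem_univ i)
  have h12 : ‖v i‖ = 0 := by
    have := sq_nonneg ‖v i‖
    exact pow_eq_zero_iff two_ne_zero |>.1 (by linarith)
  simpa using h12

end

end Pool.Agent.Helper14.ND
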