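import Pool.Agent.Helper14.ND.Param
import Pool.Agent.Helper99.ZB.Burau

/-!
# Positive words: no zero in the sector `|arg s| ≤ 1 / (8 (n + 1) ^ 2)` inside the unit disc
-/

set_option autoImplicit false

namespace Pool.Agent.Helper14.ND

open Matrix Pool.Agent.Helper99.ZB

variable {n : ℕ}

theorem sinh_le {ξ : ℝ} (h0 : 0 < ξ) (h1 : ξ ≤ 1 / 2) : Real.sinh ξ ≤ 3 / 2 * ξ := by
  have h2 : 1 - ξ ≤ Real.exp (-ξ) := by
    have := Real.add_one_le_exp (-ξ)
    linarith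
  have h3 : 0 < 1 - ξ := by linarith
  have h4 : Real.exp ξ ≤ 1 / (1 - ξ) := by
    rw [le_div_iff₀ h3]
    have h5 : Real.exp ξ * Real.exp (-ξ) = 1 := by rw [← Real.exp_add, add_neg_cancel, Real.exp_zero]
    have := mul_le_mul_of_nonneg_left h2 (Real.exp_pos ξ).le
    linarith
  rw [Real.sinh_eq]
  have h6 : 1 / (1 - ξ) - (1 - ξ) ≤ 3 * ξ := by
    rw [sub_le_iff_le_add, div_le_iff₀ h3]
    nlinarith
  linarith

theorem scal {ξ η δ k : ℝ} (hξ : 0 < ξ) (hδ : 0 < δ) (hδ1 : δ ≤ 1 / 4) (hη : |η| ≤ δ / 8) (hk : k = 1 / (1 - δ)) :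
    Real.pi * (k * Real.sinh ξ * |Real.sin η|) < ξ * (k ^ 2 * (Real.cosh ξ ^ 2 - Real.sin η ^ 2) - 1) := by
  obtain ⟨S, hS⟩ : ∃ S, S = Real.sinh ξ := ⟨_, rfl⟩
  obtain ⟨t, ht⟩ : ∃ t, t = |Real.sin η| := ⟨_, rfl⟩
  have hSξ : ξ ≤ S := by rw [hS]; exact (Real.self_le_sinh_iff.2 hξ.le)
  have hS0 : 0 < S := by linarith
  have ht0 : 0 ≤ t := by rw [ht]; exact abs_nonneg _
  have ht1 : t ≤ δ / 8 := by
    rw [ht]
    refine le_trans ?_ hη
    exact Real.abs_sin_le_abs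
  have ht2 : Real.sin η ^ 2 = t ^ 2 := by rw [ht, sq_abs]
  have hc : Real.cosh ξ ^ 2 = S ^ 2 + 1 := by rw [hS, Real.cosh_sq]
  rw [ht2, hc, ← hS, ← ht]
  have h1δ : 0 < 1 - δ := by linarith
  have hk1 : 1 + δ ≤ k := by
    rw [hk, le_div_iff₀ h1δ]
    nlinarith
  have hk2 : k ≤ 4 / 3 := by
    rw [hk, div_le_iff₀ h1δ]
    linarith
  have hk3 : 1 + 2 * δ ≤ k ^ 2 := by nlinarith
  have ht3 : t ^ 2 ≤ δ / 256 := by nlinarith
  have hb : S ^ 2 + 19 / 10 * δ ≤ k ^ 2 * (S ^ 2 + 1 - t ^ 2) - 1 := by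
    have h5 : 0 ≤ 1 - t ^ 2 := by nlinarith
    have h6 : (1 + 2 * δ) * (1 - t ^ 2) ≤ k ^ 2 * (1 - t ^ 2) := mul_le_mul_of_nonneg_right hk3 h5
    have h7 : S ^ 2 ≤ k ^ 2 * S ^ 2 := by nlinarith [sq_nonneg S]
    nlinarith
  have hl : Real.pi * (k * S * t) ≤ 53 / 100 * S * δ := by
    have hp : Real.pi < 3.15 := Real.pi_lt_d2
    have h5 : k * S * t ≤ (4 / 3) * S * (δ / 8) := by gcongr
    have h6 : 0 ≤ k * S * t := by
      have : 0 ≤ k := by linarith
      positivity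
    calc Real.pi * (k * S * t) ≤ 3.15 * (k * S * t) := by nlinarith
      _ ≤ 3.15 * ((4 / 3) * S * (δ / 8)) := by linarith
      _ ≤ 53 / 100 * S * δ := by nlinarith [mul_pos hS0 hδ]
  refine lt_of_le_of_lt hl (lt_of_lt_of_le ?_ (mul_le_mul_of_nonneg_left hb hξ.le))
  rcases le_or_gt ξ (1 / 2) with h | h
  · have h5 := sinh_le hξ h
    rw [← hS] at h5
    have h6 : 53 / 100 * S * δ ≤ 53 / 100 * (3 / 2 * ξ) * δ := by gcongr
    nlinarith [mul_pos hξ hδ, mul_pos hξ (pow_pos hS0 2)]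
  · have h5 : S / 4 < ξ * S ^ 2 := by nlinarith [mul_pos hξ hS0]
    have h6 : 53 / 100 * S * δ ≤ 53 / 100 * S * (1 / 4) := by gcongr
    nlinarith [mul_pos hξ hδ]

/-- the matrix of a letter -/
theorem Bm_eq {s : ℂ} (h : 1 + s ^ 2 ≠ 0) (a : Fin n) : Bm s n a = Lz (-s ^ 2) (s / (1 + s ^ 2)) a := by
  have e : (1 - -s ^ 2) * (s / (1 + s ^ 2)) = s := by
    rw [sub_neg_eq_add]
    field_simp
  ext i j
  unfold Bm Pm Lz ad
  rw [Matrix.sub_apply, vecMulVec_apply, e]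
  unfold del ell
  by_cases hi : i = a
  · subst hi
    rw [if_pos rfl, if_pos rfl]
    by_cases hj : j = i
    · subst hj
      rw [if_pos rfl, if_pos rfl, if_neg (by omega), Matrix.one_apply_eq]
      ring
    · have hj' : ¬ (j : ℕ) = i := fun h => hj (Fin.ext h)
      rw [if_neg hj', if_neg hj, Matrix.one_apply_ne (Ne.symm hj)]
      by_cases h2 : (i : ℕ) + 1 = j ∨ (j : ℕ) + 1 = i
      · rw [if_pos h2, if_pos h2.symm]
        ring
      · rw [if_neg h2, if_neg (fun h => h2 h.symm)]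
        ring
  · have hi' : ¬ (i : ℕ) = a := fun h => hi (Fin.ext h)
    rw [if_neg hi', if_neg hi, Matrix.one_apply]
    ring

theorem W_eq {s : ℂ} (h : 1 + s ^ 2 ≠ 0) (w : List (Fin n)) :
    W s n (w.map Fin.val) = Wz (-s ^ 2) (s / (1 + s ^ 2)) w := by
  induction w with
  | nil => rfl
  | cons a w ih => rw [List.map_cons, W_cons, ih, Bm_eq h, Wz_cons]

theorem exists_fin {w : List ℕ} (hw : ∀ a ∈ w, a < n) : ∃ u : List (Fin n), u.map Fin.val = w := by
  induction w with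
  | nil => exact ⟨[], rfl⟩
  | cons a w ih =>
    obtain ⟨u, hu⟩ := ih fun b hb => hw b (List.mem_cons_of_mem _ hb)
    exact ⟨⟨a, hw a List.mem_cons_self⟩ :: u, by rw [List.map_cons, hu]⟩

/-- **No zeros in the sector.** -/
theorem near {s : ℂ} (h0 : s ≠ 0) (h1 : ‖s‖ < 1) (harg : |s.arg| ≤ 1 / (8 * ((n : ℝ) + 1) ^ 2)) {w : List ℕ}
    (hw : ∀ a ∈ w, a < n) (hf : ∀ a < n, a ∈ w) : det (1 - W s n w) ≠ 0 := by
  rcases Nat.eq_zero_or_pos n with hn | hn
  · subst hn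
    rw [det_isEmpty]
    exact one_ne_zero
  obtain ⟨v, rfl⟩ := exists_fin hw
  have hv : ∀ a : Fin n, a ∈ v := by
    intro a
    obtain ⟨b, hb, hb2⟩ := List.mem_map.1 (hf a a.2)
    rwa [← Fin.ext hb2]
  -- coordinates
  obtain ⟨u, hu⟩ : ∃ u, u = -Complex.log s := ⟨_, rfl⟩
  obtain ⟨ξ, hξ⟩ : ∃ ξ, ξ = u.re := ⟨_, rfl⟩
  obtain ⟨η, hη⟩ : ∃ η, η = u.im := ⟨_, rfl⟩
  have hs : s = Complex.exp (-u) := by rw [hu, neg_neg, Complex.exp_log h0]
  have hs' : s⁻¹ = Complex.exp u := by rw [hs, ← Complex.exp_neg, neg_neg]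
  have hξ0 : 0 < ξ := by
    rw [hξ, hu, Complex.neg_re, Complex.log_re]
    have := Real.log_neg (norm_pos_iff.2 h0) h1
    linarith
  have hη1 : |η| = |s.arg| := by rw [hη, hu, Complex.neg_im, Complex.log_im, abs_neg]
  obtain ⟨δ, hδ⟩ : ∃ δ, δ = 1 / ((n : ℝ) + 1) ^ 2 := ⟨_, rfl⟩
  have hn' : (1 : ℝ) ≤ n := by exact_mod_cast hn
  have hδ0 : 0 < δ := by rw [hδ]; positivity
  have hδ1 : δ ≤ 1 / 4 := by
    rw [hδ]
    apply one_div_le_one_div_of_le (by norm_num)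
    nlinarith
  have hη2 : |η| ≤ δ / 8 := by
    rw [hη1, hδ]
    refine harg.trans (le_of_eq ?_)
    field_simp
  have hpi := Real.pi_gt_three
  have hη3 : |η| < Real.pi / 2 := by linarith
  obtain ⟨K, hK⟩ : ∃ K, K = 1 / (2 * (1 - 1 / ((n : ℝ) + 1) ^ 2)) := ⟨_, rfl⟩
  have hωt := wts (n := n) hn
  rw [← hK] at hωt
  have hK0 := hωt.K0
  obtain ⟨k, hk⟩ : ∃ k, k = 1 / (1 - δ) := ⟨_, rfl⟩
  have hkK : 2 * K = k := by
    rw [hK, hk, ← hδ]
    have : 1 - δ ≠ 0 := by linarith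
    field_simp
  have hsc := scal hξ0 hδ0 hδ1 hη2 hk
  -- the Moebius variable
  obtain ⟨C, hC⟩ : ∃ C : ℂ, C = K * (s⁻¹ + s) := ⟨_, rfl⟩
  have hCre : C.re = k * (Real.cosh ξ * Real.cos η) := by
    rw [hC, hs', hs, Complex.re_ofReal_mul, Complex.add_re, Complex.exp_re, Complex.exp_re, Complex.neg_re, Complex.neg_im, ← hξ, ← hη,
      Real.cos_neg, ← hkK, Real.cosh_eq]
    ring
  have hCim : C.im = k * (Real.sinh ξ * Real.sin η) := by
    rw [hC, hs', hs, Complex.im_ofReal_mul, Complex.add_im, Complex.exp_im, Complex.exp_im, Complex.neg_re, Complex.neg_im, ← hξ, ← hη,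
      Real.sin_neg, ← hkK, Real.sinh_eq]
    ring
  have hCn : C.re ^ 2 + C.im ^ 2 = k ^ 2 * (Real.cosh ξ ^ 2 - Real.sin η ^ 2) := by
    rw [hCre, hCim]
    have e1 := Real.cosh_sq ξ
    have e2 := Real.sin_sq_add_cos_sq η
    have e3 : Real.cos η ^ 2 = 1 - Real.sin η ^ 2 := by linarith
    calc (k * (Real.cosh ξ * Real.cos η)) ^ 2 + (k * (Real.sinh ξ * Real.sin η)) ^ 2 =
        k ^ 2 * (Real.cosh ξ ^ 2 * Real.cos η ^ 2 + Real.sinh ξ ^ 2 * Real.sin η ^ 2) := by ring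
      _ = _ := by
        rw [e3, e1]
        ring
  rw [← hCn] at hsc
  have hk0 : 0 < k := by linarith
  have hsh : 0 < Real.sinh ξ := Real.sinh_pos_iff.2 hξ0
  have hN : 0 < C.re ^ 2 + C.im ^ 2 - 1 := by
    have h5 : 0 ≤ Real.pi * (k * Real.sinh ξ * |Real.sin η|) := by positivity
    have h6 : 0 < ξ * (C.re ^ 2 + C.im ^ 2 - 1) := lt_of_le_of_lt h5 hsc
    exact (pos_iff_pos_of_mul_pos h6).1 hξ0
  have hCabs : |C.im| = k * Real.sinh ξ * |Real.sin η| := by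
    rw [hCim, abs_mul, abs_mul, abs_of_pos hk0, abs_of_pos hsh, mul_assoc]
  rw [← hCabs] at hsc
  have hC1 : C - 1 ≠ 0 := by
    intro h5
    have : C = 1 := by linear_combination h5
    rw [this] at hN
    simp at hN
  have hC0 : C ≠ 0 := by
    intro h5
    rw [h5] at hN
    simp at hN
    linarith
  have hsum0 : s⁻¹ + s ≠ 0 := by
    intro h5
    apply hC0
    rw [hC, h5, mul_zero]
  have h1s : 1 + s ^ 2 ≠ 0 := by
    intro h5
    apply hsum0
    field_simp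
    linear_combination h5
  obtain ⟨q, hq⟩ : ∃ q, q = (C + 1) / (C - 1) := ⟨_, rfl⟩
  obtain ⟨N, hNd⟩ : ∃ N, N = Complex.normSq (C - 1) := ⟨_, rfl⟩
  have hN0 : 0 < N := by rw [hNd]; exact Complex.normSq_pos.2 hC1
  have hqre : q.re = (C.re ^ 2 + C.im ^ 2 - 1) / N := by
    rw [hq, Complex.div_re, ← hNd]
    simp only [Complex.add_re, Complex.add_im, Complex.sub_re, Complex.sub_im, Complex.one_re, Complex.one_im]
    ring
  have hqim : q.im = -(2 * C.im) / N := by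
    rw [hq, Complex.div_im, ← hNd]
    simp only [Complex.add_re, Complex.add_im, Complex.sub_re, Complex.sub_im, Complex.one_re, Complex.one_im]
    ring
  have hqp : 0 < q.re := by rw [hqre]; exact div_pos hN hN0
  have hqK : (K : ℂ) * ((q - 1) / (q + 1)) = s / (1 + s ^ 2) := by
    have hKc : (K : ℂ) ≠ 0 := by exact_mod_cast hK0.ne'
    have e1 : (q - 1) / (q + 1) = 1 / C := by
      rw [hq]
      have e2 : (C + 1) / (C - 1) - 1 = 2 / (C - 1) := by
        field_simp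
        ring
      have e3 : (C + 1) / (C - 1) + 1 = 2 * C / (C - 1) := by
        field_simp
        ring
      rw [e2, e3]
      field_simp
    rw [e1, hC]
    field_simp
  -- the logarithm of the other variable
  obtain ⟨e, he, heη, hea⟩ : ∃ e : ℝ, Complex.exp (e * Real.pi * Complex.I) = -1 ∧ |η - e * (Real.pi / 2)| ≤ Real.pi / 2 ∧
      η - e * (Real.pi / 2) ≠ 0 := by
    rcases le_total 0 η with h5 | h5
    · refine ⟨1, ?_, ?_, ?_⟩
      · rw [Complex.ofReal_one, one_mul, Complex.exp_pi_mul_I]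
      · rw [abs_of_nonneg h5] at hη3
        rw [abs_le]
        constructor <;> linarith
      · rw [abs_of_nonneg h5] at hη3
        intro h6
        linarith
    · refine ⟨-1, ?_, ?_, ?_⟩
      · push_cast
        rw [neg_one_mul, neg_mul, Complex.exp_neg, Complex.exp_pi_mul_I]
        norm_num
      · rw [abs_of_nonpos h5] at hη3
        rw [abs_le]
        constructor <;> linarith
      · rw [abs_of_nonpos h5] at hη3
        intro h6
        linarith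
  obtain ⟨a, ha⟩ : ∃ a : ℂ, a = u - ((e * (Real.pi / 2) : ℝ) : ℂ) * Complex.I := ⟨_, rfl⟩
  have hare : a.re = ξ := by
    rw [ha, Complex.sub_re, Complex.re_ofReal_mul, Complex.I_re, mul_zero, sub_zero, hξ]
  have haim : a.im = η - e * (Real.pi / 2) := by
    rw [ha, Complex.sub_im, Complex.im_ofReal_mul, Complex.I_im, mul_one, hη]
  have hexp : Complex.exp (-2 * a) = -s ^ 2 := by
    have e1 : -2 * a = (-u) + (-u) + e * Real.pi * Complex.I := by
      rw [ha]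
      push_cast
      ring
    rw [e1, Complex.exp_add, Complex.exp_add, he, ← hs]
    ring
  have key := param hωt hv (a := a) (q := q) (by rw [hare]; exact hξ0) (by rw [haim]; exact hea) hqp (by
    rw [hare, haim, hqre, hqim, abs_div, abs_of_pos hN0, abs_neg, abs_mul, abs_two]
    have e1 : |η - e * (Real.pi / 2)| * (2 * |C.im| / N) = (|η - e * (Real.pi / 2)| * (2 * |C.im|)) / N := by ring
    have e2 : ξ * ((C.re ^ 2 + C.im ^ 2 - 1) / N) = (ξ * (C.re ^ 2 + C.im ^ 2 - 1)) / N := by ring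
    rw [e1, e2]
    refine div_lt_div_of_pos_right ?_ hN0
    have h5 : |η - e * (Real.pi / 2)| * (2 * |C.im|) ≤ Real.pi / 2 * (2 * |C.im|) :=
      mul_le_mul_of_nonneg_right heη (by positivity)
    linarith)
  rw [W_eq h1s, ← hexp, ← hqK]
  exact key

end Pool.Agent.Helper14.ND
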