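import Pool.Agent.Helper14.ND.Near

/-!
# Positive words: the sector of angle `c / (n + 1)`
-/

set_option autoImplicit false

namespace Pool.Agent.Helper14.ND

open Matrix Pool.Agent.Helper99.ZB

variable {n : ℕ}

theorem scal2 {ξ η δ k g : ℝ} (hξ : 0 < ξ) (hδ : 0 < δ) (hδ1 : δ ≤ 1 / 4) (hg0 : 0 < g) (hg : g ^ 2 = δ)
    (hη : 5 * |Real.sin η| ≤ g * Real.sinh ξ) (hk : k = 1 / (1 - δ)) :
    Real.pi * (k * Real.sinh ξ * |Real.sin η|) < ξ * (k ^ 2 * (Real.cosh ξ ^ 2 - Real.sin η ^ 2) - 1) := by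
  obtain ⟨S, hS⟩ : ∃ S, S = Real.sinh ξ := ⟨_, rfl⟩
  obtain ⟨t, ht⟩ : ∃ t, t = |Real.sin η| := ⟨_, rfl⟩
  have hSξ : ξ ≤ S := by rw [hS]; exact (Real.self_le_sinh_iff.2 hξ.le)
  have hS0 : 0 < S := by linarith
  have ht0 : 0 ≤ t := by rw [ht]; exact abs_nonneg _
  rw [← ht, ← hS] at hη
  have ht2 : Real.sin η ^ 2 = t ^ 2 := by rw [ht, sq_abs]
  have hc : Real.cosh ξ ^ 2 = S ^ 2 + 1 := by rw [hS, Real.cosh_sq]
  rw [ht2, hc, ← hS, ← ht]
  have h1δ : 0 < 1 - δ := by linarith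
  have hg1 : g ≤ 1 / 2 := by nlinarith
  have hk1 : 1 + δ ≤ k := by
    rw [hk, le_div_iff₀ h1δ]
    nlinarith
  have hk2 : k ≤ 4 / 3 := by
    rw [hk, div_le_iff₀ h1δ]
    linarith
  have hk3 : 1 + 2 * δ ≤ k ^ 2 := by nlinarith
  have ht3 : t ^ 2 ≤ δ * S ^ 2 / 25 := by
    have h1 : (5 * t) ^ 2 ≤ (g * S) ^ 2 := pow_le_pow_left₀ (by positivity) hη 2
    rw [mul_pow, mul_pow, hg] at h1
    linarith
  have hb : S ^ 2 + 2 * δ ≤ k ^ 2 * (S ^ 2 + 1 - t ^ 2) - 1 := by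
    have h5 : 0 ≤ S ^ 2 + 1 - t ^ 2 := by nlinarith [sq_nonneg S]
    have h6 : (1 + 2 * δ) * (S ^ 2 + 1 - t ^ 2) ≤ k ^ 2 * (S ^ 2 + 1 - t ^ 2) := mul_le_mul_of_nonneg_right hk3 h5
    have h7 : (1 + 2 * δ) * t ^ 2 ≤ 3 / 2 * (δ * S ^ 2 / 25) := by
      refine mul_le_mul (by linarith) ht3 (sq_nonneg t) (by norm_num)
    nlinarith [mul_nonneg hδ.le (sq_nonneg S)]
  have hl : Real.pi * (k * S * t) ≤ 84 / 100 * (g * S ^ 2) := by
    have hp : Real.pi < 3.15 := Real.pi_lt_d2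
    have h5 : k * S * t ≤ (4 / 3) * S * (g * S / 5) := by
      have : t ≤ g * S / 5 := by linarith
      gcongr
    have h6 : 0 ≤ k * S * t := by
      have : 0 ≤ k := by linarith
      positivity
    calc Real.pi * (k * S * t) ≤ 3.15 * (k * S * t) := by nlinarith
      _ ≤ 3.15 * ((4 / 3) * S * (g * S / 5)) := by linarith
      _ = 84 / 100 * (g * S ^ 2) := by ring
  refine lt_of_le_of_lt hl (lt_of_lt_of_le ?_ (mul_le_mul_of_nonneg_left hb hξ.le))
  rcases le_or_gt ξ (1 / 2) with h | h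
  · have h5 := sinh_le hξ h
    rw [← hS] at h5
    have h6 : 2 * (g * S) ≤ S ^ 2 + 2 * δ := by
      rw [← hg]
      nlinarith [sq_nonneg (S - g), sq_nonneg g]
    have h7 : 84 / 100 * (g * S ^ 2) ≤ 126 / 100 * (g * S * ξ) := by
      have : g * S ^ 2 ≤ g * S * (3 / 2 * ξ) := by
        rw [pow_two, ← mul_assoc]
        exact mul_le_mul_of_nonneg_left h5 (by positivity)
      linarith
    have h8 : ξ * (2 * (g * S)) ≤ ξ * (S ^ 2 + 2 * δ) := mul_le_mul_of_nonneg_left h6 hξ.le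
    have h9 : 0 < g * S * ξ := by positivity
    linarith
  · have h5 : g * S ^ 2 ≤ 1 / 2 * S ^ 2 := mul_le_mul_of_nonneg_right hg1 (sq_nonneg S)
    have h6 : 1 / 2 * S ^ 2 < ξ * S ^ 2 := mul_lt_mul_of_pos_right h (by positivity)
    have h7 : 0 < ξ * (2 * δ) := by positivity
    nlinarith [sq_nonneg S]

/-- **No zeros under the scalar inequality.** -/
theorem near_gen {s : ℂ} (h0 : s ≠ 0) (h1 : ‖s‖ < 1) (harg : |s.arg| < Real.pi / 2)
    (hscal : ∀ ξ η δ k : ℝ, 0 < ξ → ξ = -Real.log ‖s‖ → |η| = |s.arg| → δ = 1 / ((n : ℝ) + 1) ^ 2 → 0 < δ → δ ≤ 1 / 4 →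
      k = 1 / (1 - δ) → Real.pi * (k * Real.sinh ξ * |Real.sin η|) < ξ * (k ^ 2 * (Real.cosh ξ ^ 2 - Real.sin η ^ 2) - 1))
    {w : List ℕ} (hw : ∀ a ∈ w, a < n) (hf : ∀ a < n, a ∈ w) : det (1 - W s n w) ≠ 0 := by
  rcases Nat.eq_zero_or_pos n with hn | hn
  · subst hn
    rw [det_isEmpty]
    exact one_ne_zero
  obtain ⟨v, rfl⟩ := exists_fin hw
  have hv : ∀ a : Fin n, a ∈ v := by
    intro a
    obtain ⟨b, hb, hb2⟩ := List.mem_map.1 (hf a a.2)
    rwa [← Fin.ext hb2]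
  -- coordinates
  obtain ⟨u, hu⟩ : ∃ u, u = -Complex.log s := ⟨_, rfl⟩
  obtain ⟨ξ, hξ⟩ : ∃ ξ, ξ = u.re := ⟨_, rfl⟩
  obtain ⟨η, hη⟩ : ∃ η, η = u.im := ⟨_, rfl⟩
  have hs : s = Complex.exp (-u) := by rw [hu, neg_neg, Complex.exp_log h0]
  have hs' : s⁻¹ = Complex.exp u := by rw [hs, ← Complex.exp_neg, neg_neg]
  have hξ0 : 0 < ξ := by
    rw [hξ, hu, Complex.neg_re, Complex.log_re]
    have := Real.log_neg (norm_pos_iff.2 h0) h1
    linarith
  have hη1 : |η| = |s.arg| := by rw [hη, hu, Complex.neg_im, Complex.log_im, abs_neg]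
  obtain ⟨δ, hδ⟩ : ∃ δ, δ = 1 / ((n : ℝ) + 1) ^ 2 := ⟨_, rfl⟩
  have hn' : (1 : ℝ) ≤ n := by exact_mod_cast hn
  have hδ0 : 0 < δ := by rw [hδ]; positivity
  have hδ1 : δ ≤ 1 / 4 := by
    rw [hδ]
    apply one_div_le_one_div_of_le (by norm_num)
    nlinarith
  have hpi := Real.pi_gt_three
  have hη3 : |η| < Real.pi / 2 := by rw [hη1]; exact harg
  obtain ⟨K, hK⟩ : ∃ K, K = 1 / (2 * (1 - 1 / ((n : ℝ) + 1) ^ 2)) := ⟨_, rfl⟩
  have hωt := wts (n := n) hn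
  rw [← hK] at hωt
  have hK0 := hωt.K0
  obtain ⟨k, hk⟩ : ∃ k, k = 1 / (1 - δ) := ⟨_, rfl⟩
  have hkK : 2 * K = k := by
    rw [hK, hk, ← hδ]
    have : 1 - δ ≠ 0 := by linarith
    field_simp
  have hξl : ξ = -Real.log ‖s‖ := by rw [hξ, hu, Complex.neg_re, Complex.log_re]
  have hsc := hscal ξ η δ k hξ0 hξl hη1 hδ hδ0 hδ1 hk
  -- the Moebius variable
  obtain ⟨C, hC⟩ : ∃ C : ℂ, C = K * (s⁻¹ + s) := ⟨_, rfl⟩
  have hCre : C.re = k * (Real.cosh ξ * Real.cos η) := by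
    rw [hC, hs', hs, Complex.re_ofReal_mul, Complex.add_re, Complex.exp_re, Complex.exp_re, Complex.neg_re, Complex.neg_im, ← hξ, ← hη,
      Real.cos_neg, ← hkK, Real.cosh_eq]
    ring
  have hCim : C.im = k * (Real.sinh ξ * Real.sin η) := by
    rw [hC, hs', hs, Complex.im_ofReal_mul, Complex.add_im, Complex.exp_im, Complex.exp_im, Complex.neg_re, Complex.neg_im, ← hξ, ← hη,
      Real.sin_neg, ← hkK, Real.sinh_eq]
    ring
  have hCn : C.re ^ 2 + C.im ^ 2 = k ^ 2 * (Real.cosh ξ ^ 2 - Real.sin η ^ 2) := by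
    rw [hCre, hCim]
    have e1 := Real.cosh_sq ξ
    have e2 := Real.sin_sq_add_cos_sq η
    have e3 : Real.cos η ^ 2 = 1 - Real.sin η ^ 2 := by linarith
    calc (k * (Real.cosh ξ * Real.cos η)) ^ 2 + (k * (Real.sinh ξ * Real.sin η)) ^ 2 =
        k ^ 2 * (Real.cosh ξ ^ 2 * Real.cos η ^ 2 + Real.sinh ξ ^ 2 * Real.sin η ^ 2) := by ring
      _ = _ := by
        rw [e3, e1]
        ring
  rw [← hCn] at hsc
  have hk0 : 0 < k := by linarith
  have hsh : 0 < Real.sinh ξ := Real.sinh_pos_iff.2 hξ0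
  have hN : 0 < C.re ^ 2 + C.im ^ 2 - 1 := by
    have h5 : 0 ≤ Real.pi * (k * Real.sinh ξ * |Real.sin η|) := by positivity
    have h6 : 0 < ξ * (C.re ^ 2 + C.im ^ 2 - 1) := lt_of_le_of_lt h5 hsc
    exact (pos_iff_pos_of_mul_pos h6).1 hξ0
  have hCabs : |C.im| = k * Real.sinh ξ * |Real.sin η| := by
    rw [hCim, abs_mul, abs_mul, abs_of_pos hk0, abs_of_pos hsh, mul_assoc]
  rw [← hCabs] at hsc
  have hC1 : C - 1 ≠ 0 := by
    intro h5
    have : C = 1 := by linear_combination h5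
    rw [this] at hN
    simp at hN
  have hC0 : C ≠ 0 := by
    intro h5
    rw [h5] at hN
    simp at hN
    linarith
  have hsum0 : s⁻¹ + s ≠ 0 := by
    intro h5
    apply hC0
    rw [hC, h5, mul_zero]
  have h1s : 1 + s ^ 2 ≠ 0 := by
    intro h5
    apply hsum0
    field_simp
    linear_combination h5
  obtain ⟨q, hq⟩ : ∃ q, q = (C + 1) / (C - 1) := ⟨_, rfl⟩
  obtain ⟨N, hNd⟩ : ∃ N, N = Complex.normSq (C - 1) := ⟨_, rfl⟩
  have hN0 : 0 < N := by rw [hNd]; exact Complex.normSq_pos.2 hC1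
  have hqre : q.re = (C.re ^ 2 + C.im ^ 2 - 1) / N := by
    rw [hq, Complex.div_re, ← hNd]
    simp only [Complex.add_re, Complex.add_im, Complex.sub_re, Complex.sub_im, Complex.one_re, Complex.one_im]
    ring
  have hqim : q.im = -(2 * C.im) / N := by
    rw [hq, Complex.div_im, ← hNd]
    simp only [Complex.add_re, Complex.add_im, Complex.sub_re, Complex.sub_im, Complex.one_re, Complex.one_im]
    ring
  have hqp : 0 < q.re := by rw [hqre]; exact div_pos hN hN0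
  have hqK : (K : ℂ) * ((q - 1) / (q + 1)) = s / (1 + s ^ 2) := by
    have hKc : (K : ℂ) ≠ 0 := by exact_mod_cast hK0.ne'
    have e1 : (q - 1) / (q + 1) = 1 / C := by
      rw [hq]
      have e2 : (C + 1) / (C - 1) - 1 = 2 / (C - 1) := by
        field_simp
        ring
      have e3 : (C + 1) / (C - 1) + 1 = 2 * C / (C - 1) := by
        field_simp
        ring
      rw [e2, e3]
      field_simp
    rw [e1, hC]
    field_simp
  -- the logarithm of the other variable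
  obtain ⟨e, he, heη, hea⟩ : ∃ e : ℝ, Complex.exp (e * Real.pi * Complex.I) = -1 ∧ |η - e * (Real.pi / 2)| ≤ Real.pi / 2 ∧
      η - e * (Real.pi / 2) ≠ 0 := by
    rcases le_total 0 η with h5 | h5
    · refine ⟨1, ?_, ?_, ?_⟩
      · rw [Complex.ofReal_one, one_mul, Complex.exp_pi_mul_I]
      · rw [abs_of_nonneg h5] at hη3
        rw [abs_le]
        constructor <;> linarith
      · rw [abs_of_nonneg h5] at hη3
        intro h6
        linarith
    · refine ⟨-1, ?_, ?_, ?_⟩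
      · push_cast
        rw [neg_one_mul, neg_mul, Complex.exp_neg, Complex.exp_pi_mul_I]
        norm_num
      · rw [abs_of_nonpos h5] at hη3
        rw [abs_le]
        constructor <;> linarith
      · rw [abs_of_nonpos h5] at hη3
        intro h6
        linarith
  obtain ⟨a, ha⟩ : ∃ a : ℂ, a = u - ((e * (Real.pi / 2) : ℝ) : ℂ) * Complex.I := ⟨_, rfl⟩
  have hare : a.re = ξ := by
    rw [ha, Complex.sub_re, Complex.re_ofReal_mul, Complex.I_re, mul_zero, sub_zero, hξ]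
  have haim : a.im = η - e * (Real.pi / 2) := by
    rw [ha, Complex.sub_im, Complex.im_ofReal_mul, Complex.I_im, mul_one, hη]
  have hexp : Complex.exp (-2 * a) = -s ^ 2 := by
    have e1 : -2 * a = (-u) + (-u) + e * Real.pi * Complex.I := by
      rw [ha]
      push_cast
      ring
    rw [e1, Complex.exp_add, Complex.exp_add, he, ← hs]
    ring
  have key := param hωt hv (a := a) (q := q) (by rw [hare]; exact hξ0) (by rw [haim]; exact hea) hqp (by
    rw [hare, haim, hqre, hqim, abs_div, abs_of_pos hN0, abs_neg, abs_mul, abs_two]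
    have e1 : |η - e * (Real.pi / 2)| * (2 * |C.im| / N) = (|η - e * (Real.pi / 2)| * (2 * |C.im|)) / N := by ring
    have e2 : ξ * ((C.re ^ 2 + C.im ^ 2 - 1) / N) = (ξ * (C.re ^ 2 + C.im ^ 2 - 1)) / N := by ring
    rw [e1, e2]
    refine div_lt_div_of_pos_right ?_ hN0
    have h5 : |η - e * (Real.pi / 2)| * (2 * |C.im|) ≤ Real.pi / 2 * (2 * |C.im|) :=
      mul_le_mul_of_nonneg_right heη (by positivity)
    linarith)
  rw [W_eq h1s, ← hexp, ← hqK]
  exact key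

/-- **No zeros in the region `5 (n + 1) |sin η| ≤ sinh ξ`.** -/
theorem near2 {s : ℂ} (h0 : s ≠ 0) (h1 : ‖s‖ < 1) (harg : |s.arg| < Real.pi / 2)
    (hsin : 5 * ((n : ℝ) + 1) * |Real.sin s.arg| ≤ Real.sinh (-Real.log ‖s‖))
    {w : List ℕ} (hw : ∀ a ∈ w, a < n) (hf : ∀ a < n, a ∈ w) : det (1 - W s n w) ≠ 0 := by
  refine near_gen h0 h1 harg (fun ξ η δ k hξ0 hξ hη hδ hδ0 hδ1 hk => ?_) hw hf
  have hn1 : 0 < (n : ℝ) + 1 := by positivity
  have habs : |Real.sin η| = |Real.sin s.arg| := by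
    rw [abs_sin' (by rw [hη]; linarith [Real.pi_pos]), abs_sin' (by linarith [Real.pi_pos]), hη]
  refine scal2 (g := 1 / ((n : ℝ) + 1)) hξ0 hδ0 hδ1 (by positivity) (by rw [hδ, div_pow, one_pow]) ?_ hk
  rw [habs, hξ, one_div, inv_mul_eq_div, le_div_iff₀ hn1]
  linarith

end Pool.Agent.Helper14.ND
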