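import Pool.Agent.Helper14.ND.Strip

/-!
# The line between the two legs through a given point, and the quadratic weights
-/

set_option autoImplicit false

namespace Pool.Agent.Helper14.ND

open Matrix Set

variable {n : ℕ}

theorem abs_sin' {x : ℝ} (hx : |x| ≤ Real.pi) : |Real.sin x| = Real.sin |x| := by
  rcases le_total 0 x with h | h
  · rw [abs_of_nonneg h] at hx ⊢
    exact abs_of_nonneg (Real.sin_nonneg_of_nonneg_of_le_pi h hx)
  · rw [abs_of_nonpos h] at hx ⊢
    have h1 := Real.sin_nonneg_of_nonneg_of_le_pi (x := -x) (by linarith) hx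
    rw [Real.sin_neg] at h1 ⊢
    rw [abs_of_nonpos (by linarith)]

/-- a point with positive real parts lies in the angle `< π / 2` when the product of the slopes is less than `1` -/
theorem arg_add_arg {a b : ℂ} (ha : 0 < a.re) (hb : 0 < b.re) (h : |a.im| * |b.im| < a.re * b.re) :
    |a.arg| + |b.arg| < Real.pi / 2 := by
  obtain ⟨x, hx⟩ : ∃ x, x = |a.arg| := ⟨_, rfl⟩
  obtain ⟨y, hy⟩ : ∃ y, y = |b.arg| := ⟨_, rfl⟩
  have hx1 : x < Real.pi / 2 := by
    rw [hx]
    exact Complex.abs_arg_lt_pi_div_two_iff.2 (Or.inl ha)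
  have hy1 : y < Real.pi / 2 := by
    rw [hy]
    exact Complex.abs_arg_lt_pi_div_two_iff.2 (Or.inl hb)
  have hx0 : 0 ≤ x := by rw [hx]; exact abs_nonneg _
  have hy0 : 0 ≤ y := by rw [hy]; exact abs_nonneg _
  rw [← hx, ← hy]
  have ha0 : 0 < ‖a‖ := norm_pos_iff.2 (by rintro rfl; simp at ha)
  have hb0 : 0 < ‖b‖ := norm_pos_iff.2 (by rintro rfl; simp at hb)
  have hcx : Real.cos x = a.re / ‖a‖ := by
    rw [hx, Real.cos_abs, Complex.cos_arg (norm_pos_iff.1 ha0)]
  have hcy : Real.cos y = b.re / ‖b‖ := by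
    rw [hy, Real.cos_abs, Complex.cos_arg (norm_pos_iff.1 hb0)]
  have hsx : Real.sin x = |a.im| / ‖a‖ := by
    have h1 : |Real.sin a.arg| = Real.sin x := by
      rw [hx]
      exact abs_sin' (by rw [← hx]; linarith [Real.pi_pos])
    rw [← h1, Complex.sin_arg, abs_div, abs_of_pos ha0]
  have hsy : Real.sin y = |b.im| / ‖b‖ := by
    have h1 : |Real.sin b.arg| = Real.sin y := by
      rw [hy]
      exact abs_sin' (by rw [← hy]; linarith [Real.pi_pos])
    rw [← h1, Complex.sin_arg, abs_div, abs_of_pos hb0]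
  have hc : 0 < Real.cos (x + y) := by
    rw [Real.cos_add, hcx, hcy, hsx, hsy, div_mul_div_comm, div_mul_div_comm, ← sub_div]
    exact div_pos (by linarith) (by positivity)
  by_contra hcon
  push Not at hcon
  have : Real.cos (x + y) ≤ 0 := Real.cos_nonpos_of_pi_div_two_le_of_le hcon (by linarith)
  linarith

variable {l K D : ℝ} {ω : Fin n → ℝ}

theorem norm_moeb {K : ℝ} (hK : 0 < K) {e : ℂ} (he : 0 < e.re) : ‖(K : ℂ) * ((e - 1) / (e + 1))‖ ≤ K := by
  rw [norm_mul, Complex.norm_real, Real.norm_of_nonneg hK.le, norm_div]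
  have h1 : ‖e - 1‖ ≤ ‖e + 1‖ := by
    rw [← sq_le_sq₀ (norm_nonneg _) (norm_nonneg _), ← Complex.normSq_eq_norm_sq, ← Complex.normSq_eq_norm_sq,
      Complex.normSq_apply, Complex.normSq_apply]
    simp only [Complex.sub_re, Complex.sub_im, Complex.add_re, Complex.add_im, Complex.one_re, Complex.one_im]
    nlinarith
  have h2 : ‖e - 1‖ / ‖e + 1‖ ≤ 1 := div_le_one_of_le₀ h1 (norm_nonneg _)
  nlinarith

/-- **The point between the legs.** -/
theorem param (hω : Wts n l K D ω) {w : List (Fin n)} (hw : ∀ a, a ∈ w) {a q : ℂ} (ha : 0 < a.re) (ha2 : a.im ≠ 0)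
    (hq : 0 < q.re) (h : |a.im| * |q.im| < a.re * q.re) :
    det (1 - Wz (Complex.exp (-2 * a)) ((K : ℂ) * ((q - 1) / (q + 1))) w) ≠ 0 := by
  have hK := hω.K0
  have hexp : ∀ p : ℂ, 0 < p.re → ‖Complex.exp (-2 * p)‖ < 1 := by
    intro p hp
    rw [Complex.norm_exp, Real.exp_lt_one_iff]
    simp
    exact hp
  by_cases hb : q.im = 0
  · -- on the first leg
    obtain ⟨κ, hκ⟩ : ∃ κ : ℝ, κ = K * ((q.re - 1) / (q.re + 1)) := ⟨_, rfl⟩
    have hq' : q = (q.re : ℂ) := by
      apply Complex.ext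
      · simp
      · simp [hb]
    have e : (K : ℂ) * ((q - 1) / (q + 1)) = (κ : ℂ) := by
      rw [hκ, hq']
      push_cast
      simp
    have h1 := norm_moeb hK hq
    rw [e] at h1 ⊢
    rw [Complex.norm_real] at h1
    exact leg1_ne hω h1 (hexp a ha) hw
  · have hsum := arg_add_arg ha hq h
    obtain ⟨P, hP⟩ : ∃ P, P = Complex.log a := ⟨_, rfl⟩
    obtain ⟨M, hM⟩ : ∃ M, M = Complex.log q := ⟨_, rfl⟩
    have ha0 : a ≠ 0 := by rintro rfl; simp at ha
    have hq0 : q ≠ 0 := by rintro rfl; simp at hq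
    have hPe : Complex.exp P = a := by rw [hP, Complex.exp_log ha0]
    have hMe : Complex.exp M = q := by rw [hM, Complex.exp_log hq0]
    have hPi : P.im = a.arg := by rw [hP, Complex.log_im]
    have hMi : M.im = q.arg := by rw [hM, Complex.log_im]
    have hap : 0 < |a.arg| := by
      rw [abs_pos]
      intro h0
      rw [Complex.arg_eq_zero_iff] at h0
      exact ha2 h0.2
    have hqp : 0 < |q.arg| := by
      rw [abs_pos]
      intro h0
      rw [Complex.arg_eq_zero_iff] at h0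
      exact hb h0.2
    rw [← hPi, ← hMi] at hsum
    rw [← hPi] at hap
    rw [← hMi] at hqp
    obtain ⟨A, hA⟩ : ∃ A, A = |P.im| + |M.im| := ⟨_, rfl⟩
    have hA0 : 0 < A := by rw [hA]; positivity
    rw [← hA] at hsum
    obtain ⟨θ, hθ⟩ : ∃ θ, θ = |M.im| / A := ⟨_, rfl⟩
    have hθ1 : 1 - θ = |P.im| / A := by
      rw [hθ, eq_div_iff hA0.ne', sub_mul, div_mul_cancel₀ _ hA0.ne', hA]
      ring
    have hθ0 : 0 < θ := by rw [hθ]; positivity
    have hθ2 : 0 < 1 - θ := by rw [hθ1]; positivity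
    -- the two lines
    obtain ⟨p, hp⟩ : ∃ p : ℂ → ℂ, p = fun x => P - Complex.I * ((P.im / (1 - θ) : ℝ) : ℂ) * (x - θ) := ⟨_, rfl⟩
    obtain ⟨m, hm⟩ : ∃ m : ℂ → ℂ, m = fun x => M + Complex.I * ((M.im / θ : ℝ) : ℂ) * (x - θ) := ⟨_, rfl⟩
    have hpi : ∀ x, (p x).im = P.im / (1 - θ) * (1 - x.re) := by
      intro x
      have : (p x).im = P.im - P.im / (1 - θ) * (x.re - θ) := by
        rw [hp]
        simp only [Complex.sub_im, Complex.mul_im, Complex.mul_re, Complex.I_re, Complex.I_im, Complex.ofReal_re, Complex.ofReal_im,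
          Complex.sub_re]
        ring
      rw [this]
      field_simp
      ring
    have hmi : ∀ x, (m x).im = M.im / θ * x.re := by
      intro x
      have : (m x).im = M.im + M.im / θ * (x.re - θ) := by
        rw [hm]
        simp only [Complex.add_im, Complex.mul_im, Complex.mul_re, Complex.I_re, Complex.I_im, Complex.ofReal_re, Complex.ofReal_im,
          Complex.sub_re, Complex.sub_im]
        ring
      rw [this]
      field_simp
      ring
    have hpa : ∀ x : ℂ, 0 ≤ x.re → x.re ≤ 1 → |(p x).im| < Real.pi / 2 := by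
      intro x h0 h1
      rw [hpi, abs_mul, abs_div, abs_of_pos hθ2, abs_of_nonneg (by linarith : 0 ≤ 1 - x.re), hθ1]
      have : |P.im| / (|P.im| / A) = A := by
        field_simp
      rw [this]
      nlinarith
    have hma : ∀ x : ℂ, 0 ≤ x.re → x.re ≤ 1 → |(m x).im| < Real.pi / 2 := by
      intro x h0 h1
      rw [hmi, abs_mul, abs_div, abs_of_pos hθ0, abs_of_nonneg h0, hθ]
      have : |M.im| / (|M.im| / A) = A := by
        field_simp
      rw [this]
      nlinarith
    have hre : ∀ y : ℂ, |y.im| < Real.pi / 2 → 0 < (Complex.exp y).re := by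
      intro y hy
      rw [Complex.exp_re]
      exact mul_pos (Real.exp_pos _) (Real.cos_pos_of_mem_Ioo (abs_lt.1 hy))
    have hreal : ∀ y : ℂ, y.im = 0 → Complex.exp y = ((Real.exp y.re : ℝ) : ℂ) := by
      intro y hy
      have : y = (y.re : ℂ) := by
        apply Complex.ext
        · simp
        · simp [hy]
      rw [this]
      simp
    have hpd : ∀ x, DifferentiableAt ℂ p x := by
      intro x
      rw [hp]
      fun_prop
    have hmd : ∀ x, DifferentiableAt ℂ m x := by
      intro x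
      rw [hm]
      fun_prop
    have hst := strip hω hw (Z := fun x => Complex.exp (-2 * Complex.exp (p x)))
      (F := fun x => (K : ℂ) * ((Complex.exp (m x) - 1) / (Complex.exp (m x) + 1))) (x := (θ : ℂ)) ?_ ?_ ?_ ?_ ?_ ?_ ?_ ?_
    · have e1 : p θ = P := by rw [hp]; simp
      have e2 : m θ = M := by rw [hm]; simp
      simp only [e1, e2, hPe, hMe] at hst
      exact hst
    · intro x _ _
      exact (((hpd x).cexp).const_mul _).cexp
    · intro x h0 h1
      have h3 := hre (m x) (hma x h0 h1)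
      have h4 : Complex.exp (m x) + 1 ≠ 0 := by
        intro h5
        have := congrArg Complex.re h5
        simp only [Complex.add_re, Complex.one_re, Complex.zero_re] at this
        linarith
      exact ((((hmd x).cexp).sub (differentiableAt_const _)).div (((hmd x).cexp).add (differentiableAt_const _)) h4).const_mul _
    · intro x h0 h1
      exact hexp _ (hre (p x) (hpa x h0 h1))
    · intro x h0 h1
      exact norm_moeb hK (hre (m x) (hma x h0 h1))
    · intro x hx
      have h3 : (m x).im = 0 := by rw [hmi, hx, mul_zero]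
      refine ⟨K * ((Real.exp (m x).re - 1) / (Real.exp (m x).re + 1)), ?_⟩
      simp only [hreal _ h3]
      push_cast
      rfl
    · intro x hx
      have h3 : (p x).im = 0 := by rw [hpi, hx, sub_self, mul_zero]
      refine ⟨Real.exp (-2 * Real.exp (p x).re), (Real.exp_pos _).le, ?_⟩
      simp only [hreal _ h3]
      push_cast
      rfl
    · simpa using hθ0
    · have : θ < 1 := by linarith
      simpa using this

/-- the quadratic weights -/
theorem wts (hn : 1 ≤ n) : Wts n (1 - 4 / ((n : ℝ) + 1) ^ 2) (1 / (2 * (1 - 1 / ((n : ℝ) + 1) ^ 2))) (((n : ℝ) + 1) ^ 2)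
    (fun i : Fin n => ((i : ℝ) + 1) * ((n : ℝ) - i)) := by
  have hn' : (1 : ℝ) ≤ n := by exact_mod_cast hn
  obtain ⟨δ, hδ⟩ : ∃ δ, δ = 1 / ((n : ℝ) + 1) ^ 2 := ⟨_, rfl⟩
  have hδ0 : 0 < δ := by rw [hδ]; positivity
  have hδ1 : δ ≤ 1 / 4 := by
    rw [hδ]
    apply one_div_le_one_div_of_le (by norm_num)
    nlinarith
  have h4 : 4 / ((n : ℝ) + 1) ^ 2 = 4 * δ := by rw [hδ]; ring
  rw [h4, ← hδ]
  refine ⟨fun i => ?_, fun i => ?_, fun i => ?_, by linarith, by apply one_div_pos.2; linarith, ?_⟩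
  · have hi : ((i : ℕ) : ℝ) + 1 ≤ n := by exact_mod_cast i.2
    have hi0 : (0 : ℝ) ≤ ((i : ℕ) : ℝ) := Nat.cast_nonneg _
    have h1 : (1 : ℝ) ≤ n - (i : ℕ) := by linarith
    nlinarith
  · have hi : ((i : ℕ) : ℝ) + 1 ≤ n := by exact_mod_cast i.2
    have hi0 : (0 : ℝ) ≤ ((i : ℕ) : ℝ) := Nat.cast_nonneg _
    nlinarith
  · -- the sum of the two neighbours
    obtain ⟨f, hf⟩ : ∃ f : ℕ → ℝ, f = fun k : ℕ => ((k : ℝ) + 1) * ((n : ℝ) - k) := ⟨_, rfl⟩
    have e1 : ∑ j : Fin n, adR i j * (((j : ℕ) : ℝ) + 1) * ((n : ℝ) - (j : ℕ)) =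
        ∑ k ∈ Finset.range n, (if k = (i : ℕ) + 1 then f k else 0) + ∑ k ∈ Finset.range n, (if k + 1 = (i : ℕ) then f k else 0) := by
      rw [← Fin.sum_univ_eq_sum_range (fun k => if k = (i : ℕ) + 1 then f k else 0) n,
        ← Fin.sum_univ_eq_sum_range (fun k => if k + 1 = (i : ℕ) then f k else 0) n, ← Finset.sum_add_distrib]
      refine Finset.sum_congr rfl fun j _ => ?_
      unfold adR
      rw [hf]
      by_cases h5 : (i : ℕ) + 1 = j
      · have h6 : ¬ (j : ℕ) + 1 = i := by omega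
        rw [if_pos (Or.inl h5), if_pos h5.symm, if_neg h6]
        ring
      · by_cases h6 : (j : ℕ) + 1 = i
        · rw [if_pos (Or.inr h6), if_neg (fun h => h5 h.symm), if_pos h6]
          ring
        · rw [if_neg (by tauto), if_neg (fun h => h5 h.symm), if_neg h6]
          ring
    have e2 : ∑ k ∈ Finset.range n, (if k = (i : ℕ) + 1 then f k else 0) = f ((i : ℕ) + 1) := by
      rw [Finset.sum_ite_eq']
      by_cases h5 : (i : ℕ) + 1 < n
      · rw [if_pos (Finset.mem_range.2 h5)]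
      · rw [if_neg (fun h => h5 (Finset.mem_range.1 h)), hf]
        have h6 : (i : ℕ) + 1 = n := by
          have := i.2
          omega
        have h7 : (((i : ℕ) + 1 : ℕ) : ℝ) = n := by exact_mod_cast h6
        simp only [h7]
        ring
    have e3 : ∑ k ∈ Finset.range n, (if k + 1 = (i : ℕ) then f k else 0) = ((i : ℕ) : ℝ) * ((n : ℝ) - (i : ℕ) + 1) := by
      by_cases h5 : (i : ℕ) = 0
      · rw [h5]
        simp
      · obtain ⟨k, hk⟩ : ∃ k, (i : ℕ) = k + 1 := ⟨(i : ℕ) - 1, by omega⟩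
        rw [hk]
        simp only [add_left_inj]
        rw [Finset.sum_ite_eq', if_pos (Finset.mem_range.2 (by have := i.2; omega)), hf]
        push_cast
        ring
    have e4 : ∑ j : Fin n, adR i j * ((((j : ℕ) : ℝ) + 1) * ((n : ℝ) - (j : ℕ))) =
        2 * ((((i : ℕ) : ℝ) + 1) * ((n : ℝ) - (i : ℕ))) - 2 := by
      simp only [← mul_assoc]
      rw [e1, e2, e3, hf]
      push_cast
      ring
    rw [e4]
    have h6 : 4 * ((((i : ℕ) : ℝ) + 1) * ((n : ℝ) - (i : ℕ))) ≤ ((n : ℝ) + 1) ^ 2 := by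
      have := sq_nonneg ((((i : ℕ) : ℝ) + 1) - ((n : ℝ) - (i : ℕ)))
      nlinarith
    have h7 : δ * (4 * ((((i : ℕ) : ℝ) + 1) * ((n : ℝ) - (i : ℕ)))) ≤ 1 := by
      rw [hδ, one_div, inv_mul_le_iff₀ (by positivity), mul_one]
      exact h6
    nlinarith
  · have h5 : 0 < 1 - δ := by linarith
    have h6 : 2 * (1 - 4 * δ) * (1 / (2 * (1 - δ))) = (1 - 4 * δ) / (1 - δ) := by
      field_simp
    rw [h6, div_lt_one h5]
    linarith

end Pool.Agent.Helper14.ND
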