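import Pool.Agent.Helper14.ND.Legs

/-!
# Between the two legs: three lines and the maximum principle
-/

set_option autoImplicit false

namespace Pool.Agent.Helper14.ND

open Matrix Set

variable {n : ℕ}

theorem diff_mul {M N : ℂ → Matrix (Fin n) (Fin n) ℂ} {x : ℂ} (hM : ∀ i j, DifferentiableAt ℂ (fun x => M x i j) x)
    (hN : ∀ i j, DifferentiableAt ℂ (fun x => N x i j) x) (i j : Fin n) : DifferentiableAt ℂ (fun x => (M x * N x) i j) x := by
  simp only [Matrix.mul_apply]
  exact DifferentiableAt.fun_sum fun k _ => (hM i k).mul (hN k j)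

theorem diff_pow {M : ℂ → Matrix (Fin n) (Fin n) ℂ} {x : ℂ} (hM : ∀ i j, DifferentiableAt ℂ (fun x => M x i j) x) (k : ℕ) :
    ∀ i j, DifferentiableAt ℂ (fun x => (M x ^ k) i j) x := by
  induction k with
  | zero =>
    intro i j
    simp only [pow_zero]
    exact differentiableAt_const _
  | succ k ih =>
    simp only [pow_succ]
    exact diff_mul ih hM

theorem diff_det {M : ℂ → Matrix (Fin n) (Fin n) ℂ} {x : ℂ} (hM : ∀ i j, DifferentiableAt ℂ (fun x => M x i j) x) :
    DifferentiableAt ℂ (fun x => det (M x)) x := by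
  simp only [det_apply']
  refine DifferentiableAt.fun_sum fun σ _ => ?_
  exact (DifferentiableAt.fun_finsetProd fun i _ => hM (σ i) i).const_mul _

theorem diff_Wz {Z F : ℂ → ℂ} {x : ℂ} (hZ : DifferentiableAt ℂ Z x) (hF : DifferentiableAt ℂ F x) (w : List (Fin n)) :
    ∀ i j, DifferentiableAt ℂ (fun x => Wz (Z x) (F x) w i j) x := by
  induction w with
  | nil =>
    intro i j
    simp only [Wz_nil]
    exact differentiableAt_const _
  | cons a w ih =>
    simp only [Wz_cons]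
    refine diff_mul (fun i j => ?_) ih
    unfold Lz
    by_cases h : i = a
    · simp only [if_pos h]
      by_cases h2 : j = a
      · simp only [if_pos h2]
        exact hZ.add ((((differentiableAt_const _).sub hZ).mul hF).mul (differentiableAt_const _))
      · simp only [if_neg h2]
        exact (differentiableAt_const _).add ((((differentiableAt_const _).sub hZ).mul hF).mul (differentiableAt_const _))
    · simp only [if_neg h]
      exact differentiableAt_const _

/-- bounded powers: no eigenvalue outside the closed unit disc -/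
theorem ne_of_bdd {M : Matrix (Fin n) (Fin n) ℂ} {C : ℝ} (h : ∀ k i j, ‖(M ^ k) i j‖ ≤ C) {r : ℝ} (h0 : 0 ≤ r) (h1 : r < 1) :
    det (1 - (r : ℂ) • M) ≠ 0 := by
  intro hdet
  obtain ⟨v, hv, hv2⟩ := exists_mulVec_eq_zero_iff.2 hdet
  rw [sub_mulVec, one_mulVec, sub_eq_zero] at hv2
  have hk : ∀ k : ℕ, v = ((r : ℂ) ^ k) • ((M ^ k) *ᵥ v) := by
    intro k
    induction k with
    | zero => simp
    | succ k ih =>
      calc v = ((r : ℂ) ^ k) • ((M ^ k) *ᵥ v) := ih
        _ = ((r : ℂ) ^ k) • ((M ^ k) *ᵥ (((r : ℂ) • M) *ᵥ v)) := by rw [← hv2]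
        _ = ((r : ℂ) ^ (k + 1)) • ((M ^ (k + 1)) *ᵥ v) := by
          rw [smul_mulVec, mulVec_smul, smul_smul, mulVec_mulVec, ← pow_succ, ← pow_succ]
  apply hv
  ext i
  obtain ⟨S, hS⟩ : ∃ S, S = ∑ j, ‖v j‖ := ⟨_, rfl⟩
  have hb : ∀ k : ℕ, ‖v i‖ ≤ r ^ k * (C * S) := by
    intro k
    have e : v i = (r : ℂ) ^ k * ∑ j, (M ^ k) i j * v j := congrFun (hk k) i
    rw [e, norm_mul, norm_pow, Complex.norm_real, Real.norm_of_nonneg h0]
    refine mul_le_mul_of_nonneg_left ?_ (by positivity)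
    rw [hS, Finset.mul_sum]
    refine (norm_sum_le _ _).trans (Finset.sum_le_sum fun j _ => ?_)
    rw [norm_mul]
    exact mul_le_mul_of_nonneg_right (h k i j) (norm_nonneg _)
  have ht : Filter.Tendsto (fun k : ℕ => r ^ k * (C * S)) Filter.atTop (nhds (0 * (C * S))) :=
    (tendsto_pow_atTop_nhds_zero_of_lt_one h0 h1).mul_const _
  rw [zero_mul] at ht
  have := ge_of_tendsto' ht hb
  have h2 : ‖v i‖ = 0 := le_antisymm this (norm_nonneg _)
  simpa using h2

variable {l K D : ℝ} {ω : Fin n → ℝ}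

/-- the entries are bounded on the bidisc -/
theorem bdd_bidisc (K : ℝ) (w : List (Fin n)) (k : ℕ) (i j : Fin n) : ∃ B : ℝ, ∀ ζ κ : ℂ, ‖ζ‖ ≤ 1 → ‖κ‖ ≤ K →
    ‖(Wz ζ κ w ^ k) i j‖ ≤ B := by
  have hc : IsCompact (Metric.closedBall (0 : ℂ) 1 ×ˢ Metric.closedBall (0 : ℂ) K) :=
    (isCompact_closedBall _ _).prod (isCompact_closedBall _ _)
  have hL : ∀ a : Fin n, Continuous fun q : ℂ × ℂ => Lz q.1 q.2 a := by
    intro a
    refine continuous_matrix fun i j => ?_
    unfold Lz
    by_cases h : i = a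
    · simp only [if_pos h]
      by_cases h2 : j = a
      · simp only [if_pos h2]
        fun_prop
      · simp only [if_neg h2]
        fun_prop
    · simp only [if_neg h]
      fun_prop
  have hW : Continuous fun q : ℂ × ℂ => Wz q.1 q.2 w := by
    induction w with
    | nil =>
      simp only [Wz_nil]
      exact continuous_const
    | cons a w ih =>
      simp only [Wz_cons]
      exact (hL a).matrix_mul ih
  have hk : Continuous fun q : ℂ × ℂ => Wz q.1 q.2 w ^ k := by
    induction k with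
    | zero =>
      simp only [pow_zero]
      exact continuous_const
    | succ k ih =>
      simp only [pow_succ]
      exact ih.matrix_mul hW
  obtain ⟨B, hB⟩ := hc.exists_bound_of_continuousOn (f := fun q : ℂ × ℂ => (Wz q.1 q.2 w ^ k) i j)
    (hk.matrix_elem i j).continuousOn
  refine ⟨B, fun ζ κ h1 h2 => hB (ζ, κ) ⟨?_, ?_⟩⟩
  · simpa using h1
  · simpa using h2

/-- **The strip.** -/
theorem strip (hω : Wts n l K D ω) {w : List (Fin n)} (hw : ∀ a, a ∈ w) {Z F : ℂ → ℂ}
    (hZd : ∀ x : ℂ, 0 ≤ x.re → x.re ≤ 1 → DifferentiableAt ℂ Z x) (hFd : ∀ x : ℂ, 0 ≤ x.re → x.re ≤ 1 → DifferentiableAt ℂ F x)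
    (hZ : ∀ x : ℂ, 0 ≤ x.re → x.re ≤ 1 → ‖Z x‖ < 1) (hF : ∀ x : ℂ, 0 ≤ x.re → x.re ≤ 1 → ‖F x‖ ≤ K)
    (h1 : ∀ x : ℂ, x.re = 0 → ∃ κ : ℝ, F x = κ) (h2 : ∀ x : ℂ, x.re = 1 → ∃ t : ℝ, 0 ≤ t ∧ Z x = t)
    {x : ℂ} (hx0 : 0 < x.re) (hx1 : x.re < 1) : det (1 - Wz (Z x) (F x) w) ≠ 0 := by
  obtain ⟨C, hC⟩ : ∃ C, C = max D (1 - 2 * l * K)⁻¹ := ⟨_, rfl⟩
  have hc : 0 < 1 - 2 * l * K := by linarith [hω.lK]
  have hC0 : 0 < C := by
    rw [hC]
    exact lt_max_of_lt_right (inv_pos.2 hc)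
  -- bound of the powers
  have hpow : ∀ y : ℂ, 0 ≤ y.re → y.re ≤ 1 → ∀ k i j, ‖(Wz (Z y) (F y) w ^ k) i j‖ ≤ C := by
    intro y hy0 hy1 k i j
    obtain ⟨B, hB⟩ := bdd_bidisc K w k i j
    have hd : ∀ x : ℂ, 0 ≤ x.re → x.re ≤ 1 → DifferentiableAt ℂ (fun x => (Wz (Z x) (F x) w ^ k) i j) x :=
      fun x a b => diff_pow (diff_Wz (hZd x a b) (hFd x a b) w) k i j
    have h := Complex.HadamardThreeLines.norm_le_interp_of_mem_verticalClosedStrip₀₁'
      (fun x => (Wz (Z x) (F x) w ^ k) i j) (z := y) (a := C) (b := C) ⟨hy0, hy1⟩ ⟨?_, ?_⟩ ?_ ?_ ?_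
    · rw [← Real.rpow_add hC0] at h
      simpa using h
    · intro z hz
      exact (hd z hz.1.le hz.2.le).differentiableWithinAt
    · intro z hz
      have hz2 : z ∈ Complex.HadamardThreeLines.verticalClosedStrip 0 1 := by
        have hcl : IsClosed (Complex.HadamardThreeLines.verticalClosedStrip 0 1) := isClosed_Icc.preimage Complex.continuous_re
        refine hcl.closure_subset_iff.2 ?_ hz
        intro z hz
        exact ⟨hz.1.le, hz.2.le⟩
      exact (hd z hz2.1 hz2.2).continuousAt.continuousWithinAt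
    · refine ⟨B, ?_⟩
      rintro _ ⟨z, hz, rfl⟩
      exact hB _ _ (hZ z hz.1 hz.2).le (hF z hz.1 hz.2)
    · intro z hz
      have hz' : z.re = 0 := hz
      obtain ⟨κ, hκ⟩ := h1 z hz'
      have h3 := hF z hz'.ge (by rw [hz']; norm_num)
      have h4 := hZ z hz'.ge (by rw [hz']; norm_num)
      simp only [hκ]
      rw [hκ, Complex.norm_real] at h3
      refine (leg1 hω h3 h4.le w k i j).trans ?_
      rw [hC]
      exact le_max_right _ _
    · intro z hz
      have hz' : z.re = 1 := hz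
      obtain ⟨t, ht0, ht⟩ := h2 z hz'
      have h3 := hF z (by rw [hz']; norm_num) hz'.le
      have h4 := hZ z (by rw [hz']; norm_num) hz'.le
      simp only [ht]
      rw [ht, Complex.norm_real, Real.norm_of_nonneg ht0] at h4
      refine (leg2 hω ht0 h4.le h3 w k i j).trans ?_
      rw [hC]
      exact le_max_left _ _
  -- the functions
  obtain ⟨g, hg⟩ : ∃ g : ℝ → ℂ → ℂ, g = fun (r : ℝ) (y : ℂ) => det (1 - (r : ℂ) • Wz (Z y) (F y) w) := ⟨_, rfl⟩
  have hgd : ∀ r : ℝ, ∀ y : ℂ, 0 ≤ y.re → y.re ≤ 1 → DifferentiableAt ℂ (g r) y := by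
    intro r y a b
    rw [hg]
    refine diff_det fun i j => ?_
    simp only [Matrix.sub_apply, Matrix.smul_apply, smul_eq_mul]
    exact (differentiableAt_const _).sub ((differentiableAt_const _).mul (diff_Wz (hZd y a b) (hFd y a b) w i j))
  have hg1 : ∀ y, g 1 y = det (1 - Wz (Z y) (F y) w) := by
    intro y
    rw [hg]
    simp
  have hg0 : ∀ r : ℝ, 0 ≤ r → r < 1 → ∀ y : ℂ, 0 ≤ y.re → y.re ≤ 1 → g r y ≠ 0 := by
    intro r a b y c d
    rw [hg]
    exact ne_of_bdd (hpow y c d) a b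
  rw [← hg1]
  intro hzero
  -- isolated zeros
  obtain ⟨U, hU⟩ : ∃ U : Set ℂ, U = {y : ℂ | 0 < y.re ∧ y.re < 1} := ⟨_, rfl⟩
  have hUo : IsOpen U := by
    rw [hU]
    exact (isOpen_lt continuous_const Complex.continuous_re).inter (isOpen_lt Complex.continuous_re continuous_const)
  have hUc : IsPreconnected U := by
    have : U = Complex.re ⁻¹' Ioo 0 1 := by
      rw [hU]
      rfl
    rw [this]
    exact ((convex_Ioo (0 : ℝ) 1).is_linear_preimage Complex.reLm.isLinear).isPreconnected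
  have hxU : x ∈ U := by
    rw [hU]
    exact ⟨hx0, hx1⟩
  have hUs : ∀ y ∈ U, 0 ≤ y.re ∧ y.re ≤ 1 := by
    intro y hy
    rw [hU] at hy
    exact ⟨hy.1.le, hy.2.le⟩
  have han : AnalyticOnNhd ℂ (g 1) U :=
    DifferentiableOn.analyticOnNhd (fun y hy => (hgd 1 y (hUs y hy).1 (hUs y hy).2).differentiableWithinAt) hUo
  have hiso : ∀ᶠ y in nhdsWithin x {x}ᶜ, g 1 y ≠ 0 := by
    by_contra hcon
    rw [Filter.not_eventually] at hcon
    have hfr : ∃ᶠ y in nhdsWithin x {x}ᶜ, g 1 y = 0 := by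
      refine hcon.mono fun y hy => ?_
      simpa using hy
    have hz := han.eqOn_zero_of_preconnected_of_frequently_eq_zero hUc hxU hfr
    -- limit at the edge
    have hcont : ContinuousAt (g 1) 0 := (hgd 1 0 (by simp) (by simp)).continuousAt
    have hlim : Filter.Tendsto (fun m : ℕ => ((1 / ((m : ℝ) + 2) : ℝ) : ℂ)) Filter.atTop (nhds 0) := by
      have : Filter.Tendsto (fun m : ℕ => (1 / ((m : ℝ) + 2) : ℝ)) Filter.atTop (nhds 0) := by
        have h5 : Filter.Tendsto (fun m : ℕ => ((m : ℝ) + 2)) Filter.atTop Filter.atTop :=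
          Filter.tendsto_atTop_add_const_right _ _ tendsto_natCast_atTop_atTop
        exact h5.inv_tendsto_atTop.congr fun m => by simp
      have h6 := (Complex.continuous_ofReal.tendsto 0).comp this
      rw [Complex.ofReal_zero] at h6
      exact h6
    have h7 := hcont.tendsto.comp hlim
    have h8 : (fun m : ℕ => g 1 ((1 / ((m : ℝ) + 2) : ℝ) : ℂ)) = fun _ => 0 := by
      funext m
      have hm : (((1 / ((m : ℝ) + 2) : ℝ) : ℂ)) ∈ U := by
        rw [hU]
        simp only [mem_ofPred_eq, Complex.ofReal_re]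
        have : (0 : ℝ) ≤ m := Nat.cast_nonneg m
        refine ⟨by positivity, ?_⟩
        rw [div_lt_one (by positivity)]
        linarith
      exact hz hm
    have h9 : Filter.Tendsto (fun m : ℕ => g 1 ((1 / ((m : ℝ) + 2) : ℝ) : ℂ)) Filter.atTop (nhds (g 1 0)) := h7
    rw [h8] at h9
    have h10 := tendsto_nhds_unique h9 tendsto_const_nhds
    obtain ⟨κ, hκ⟩ := h1 0 (by simp)
    have h3 := hF 0 (by simp) (by simp)
    have h4 := hZ 0 (by simp) (by simp)
    rw [hκ, Complex.norm_real] at h3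
    have h11 := leg1_ne hω h3 h4 hw
    rw [hg1, hκ] at h10
    exact h11 h10
  -- a circle without zeros
  have hball : ∀ᶠ y in nhds x, y ∈ U := hUo.mem_nhds hxU
  rw [eventually_nhdsWithin_iff] at hiso
  obtain ⟨ρ, hρ, hρ2⟩ := Metric.eventually_nhds_iff_ball.1 (hiso.and hball)
  obtain ⟨q, hq⟩ : ∃ q, q = ρ / 2 := ⟨_, rfl⟩
  have hq0 : 0 < q := by rw [hq]; positivity
  have hsub : Metric.closedBall x q ⊆ Metric.ball x ρ := Metric.closedBall_subset_ball (by rw [hq]; linarith)
  have hin : ∀ y ∈ Metric.closedBall x q, 0 ≤ y.re ∧ y.re ≤ 1 := fun y hy => hUs y (hρ2 y (hsub hy)).2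
  have hsph : ∀ y ∈ Metric.sphere x q, g 1 y ≠ 0 := by
    intro y hy
    refine (hρ2 y (hsub (Metric.sphere_subset_closedBall hy))).1 ?_
    simp only [mem_compl_iff, mem_singleton_iff]
    rintro rfl
    simp only [Metric.mem_sphere, dist_self] at hy
    linarith
  -- the minimum on the circle
  obtain ⟨m, hm0, hm⟩ : ∃ m : ℝ, 0 < m ∧ ∀ r : ℝ, 0 ≤ r → r ≤ 1 → ∀ y ∈ Metric.sphere x q, m ≤ ‖g r y‖ := by
    have hcomp : IsCompact (Icc (0 : ℝ) 1 ×ˢ Metric.sphere x q) := isCompact_Icc.prod (isCompact_sphere _ _)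
    have hne : (Icc (0 : ℝ) 1 ×ˢ Metric.sphere x q).Nonempty := by
      refine ⟨(0, x + q), ⟨by simp, ?_⟩⟩
      simp [abs_of_pos hq0]
    have hcW : ContinuousOn (fun y => Wz (Z y) (F y) w) (Metric.sphere x q) := by
      rw [continuousOn_iff_continuous_domRestrict]
      refine continuous_matrix fun i j => ?_
      have h5 : ContinuousOn (fun y => Wz (Z y) (F y) w i j) (Metric.sphere x q) := by
        intro y hy
        have := hin y (Metric.sphere_subset_closedBall hy)
        exact (diff_Wz (hZd y this.1 this.2) (hFd y this.1 this.2) w i j).continuousAt.continuousWithinAt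
      exact continuousOn_iff_continuous_domRestrict.1 h5
    have hcont : ContinuousOn (fun p : ℝ × ℂ => ‖g p.1 p.2‖) (Icc (0 : ℝ) 1 ×ˢ Metric.sphere x q) := by
      rw [hg, continuousOn_iff_continuous_domRestrict]
      have h5 : Continuous fun p : ↥(Icc (0 : ℝ) 1 ×ˢ Metric.sphere x q) => Wz (Z p.1.2) (F p.1.2) w := by
        have h6 := (continuousOn_iff_continuous_domRestrict.1 hcW)
        exact h6.comp (g := (Metric.sphere x q).domRestrict fun y => Wz (Z y) (F y) w)
          (f := fun p : ↥(Icc (0 : ℝ) 1 ×ˢ Metric.sphere x q) => (⟨p.1.2, p.2.2⟩ : ↥(Metric.sphere x q))) (by fun_prop)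
      have h6 : Continuous fun p : ↥(Icc (0 : ℝ) 1 ×ˢ Metric.sphere x q) => ((p.1.1 : ℝ) : ℂ) := by fun_prop
      exact ((continuous_const.sub (h6.smul h5)).matrix_det).norm
    obtain ⟨p, hp, hpm⟩ := hcomp.exists_isMinOn hne hcont
    refine ⟨‖g p.1 p.2‖, ?_, fun r a b y hy => hpm (a := (r, y)) ⟨⟨a, b⟩, hy⟩⟩
    rw [norm_pos_iff]
    rcases eq_or_lt_of_le hp.1.2 with h | h
    · rw [h]
      exact hsph _ hp.2
    · have := hin p.2 (Metric.sphere_subset_closedBall hp.2)
      exact hg0 _ hp.1.1 h _ this.1 this.2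
  -- the maximum principle
  have hmax : ∀ r : ℝ, 0 ≤ r → r < 1 → m ≤ ‖g r x‖ := by
    intro r a b
    have h5 : ‖(g r x)⁻¹‖ ≤ m⁻¹ := by
      refine Complex.norm_le_of_forall_mem_frontier_norm_le (f := fun y => (g r y)⁻¹) (U := Metric.ball x q) Metric.isBounded_ball
        ⟨?_, ?_⟩ ?_ (subset_closure (Metric.mem_ball_self hq0))
      · intro y hy
        have := hin y (Metric.ball_subset_closedBall hy)
        exact ((hgd r y this.1 this.2).inv (hg0 r a b y this.1 this.2)).differentiableWithinAt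
      · intro y hy
        have := hin y (Metric.closure_ball_subset_closedBall hy)
        exact ((hgd r y this.1 this.2).inv (hg0 r a b y this.1 this.2)).continuousAt.continuousWithinAt
      · intro y hy
        rw [frontier_ball x hq0.ne'] at hy
        rw [norm_inv]
        exact inv_anti₀ hm0 (hm r a b.le y hy)
    rw [norm_inv] at h5
    have h6 := hg0 r a b x hx0.le hx1.le
    have h7 : 0 < ‖g r x‖ := norm_pos_iff.2 h6
    exact (inv_le_inv₀ h7 hm0).1 h5
  have hlim : Filter.Tendsto (fun r : ℝ => ‖g r x‖) (nhdsWithin 1 (Iio 1)) (nhds ‖g 1 x‖) := by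
    have h5 : Continuous fun r : ℝ => ‖g r x‖ := by
      rw [hg]
      have h6 : Continuous fun r : ℝ => (1 - (r : ℂ) • Wz (Z x) (F x) w) :=
        continuous_const.sub (Complex.continuous_ofReal.smul continuous_const)
      exact h6.matrix_det.norm
    exact (h5.tendsto 1).mono_left nhdsWithin_le_nhds
  have h5 : m ≤ ‖g 1 x‖ := by
    refine ge_of_tendsto hlim ?_
    have h6 : Ioo (0 : ℝ) 1 ∈ nhdsWithin (1 : ℝ) (Iio 1) := Ioo_mem_nhdsLT (by norm_num)
    filter_upwards [h6] with r hr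
    exact hmax r hr.1.le hr.2
  rw [hzero, norm_zero] at h5
  linarith

end Pool.Agent.Helper14.ND
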